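import Pool.Agent.H56.BN.Line

/-!
# Two families of instances with four letters

`inst K D₀ a₁ a₂ a₃ = (K(D₀+a₁)+1, K(D₀+a₂), K(D₀+a₃), K(D₀-a₁-a₂-a₃))`, with total `4KD₀+1`.
-/

set_option autoImplicit false

namespace Pool.Agent.H88.BR

open Finset Pool.Agent.H78.BN Pool.Agent.H56.BN

/-- the instance -/
def inst (K D a b c : ℕ) : Fin 4 → ℕ :=
  ![K * (D + a) + 1, K * (D + b), K * (D + c), K * (D - (a + b + c))]

lemma total_inst {K D a b c : ℕ} (h : a + b + c ≤ D) : total (inst K D a b c) = 4 * K * D + 1 := by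
  obtain ⟨E, rfl⟩ : ∃ E, D = a + b + c + E := ⟨D - (a + b + c), by omega⟩
  unfold total inst
  rw [Fin.sum_univ_four]
  have h1 : a + b + c + E - (a + b + c) = E := by omega
  simp only [Matrix.cons_val_zero, Matrix.cons_val_one, Matrix.cons_val]
  rw [h1]
  ring

/-- a letter needed in a window of length two -/
lemma win_two {d D : ℤ} (hD : 0 < D) {a : ℤ}
    (h : 1 ≤ Fl ((d:ℝ) / D) (a + 2) - Cl ((d:ℝ) / D) a) :
    ∃ N : ℤ, 4 * (a + 1) * d - (4 * N + 2) * D ≤ 4 * d - D ∧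
      -(4 * d - D) ≤ 4 * (a + 1) * d - (4 * N + 2) * D := by
  have hDR : (0:ℝ) < D := by exact_mod_cast hD
  refine ⟨Cl ((d:ℝ) / D) a, ?_⟩
  set N := Cl ((d:ℝ) / D) a with hN
  have h2 : (a:ℝ) * ((d:ℝ) / D) - 1/4 ≤ (N:ℝ) := by rw [hN]; unfold Cl; exact Int.le_ceil _
  have h3 : ((N + 1 : ℤ) : ℝ) ≤ ((a + 2 : ℤ) : ℝ) * ((d:ℝ) / D) + 1/4 := by
    have h4 : ((N + 1 : ℤ) : ℝ) ≤ ((Fl ((d:ℝ) / D) (a + 2) : ℤ) : ℝ) := by
      exact_mod_cast (by omega : N + 1 ≤ Fl ((d:ℝ) / D) (a + 2))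
    refine le_trans h4 ?_
    unfold Fl
    exact Int.floor_le _
  have e1 : (4 * (a:ℝ) * d - D) ≤ 4 * N * D := by
    have h5 : (a:ℝ) * ((d:ℝ) / D) - 1/4 = (4 * a * d - D) / (4 * D) := by field_simp
    rw [h5, div_le_iff₀ (by positivity)] at h2
    linarith
  have e2 : 4 * ((N:ℝ) + 1) * D ≤ 4 * (a + 2) * d + D := by
    have h5 : ((a + 2 : ℤ) : ℝ) * ((d:ℝ) / D) + 1/4 = (4 * (a + 2) * d + D) / (4 * D) := by
      push_cast; field_simp
    rw [h5, le_div_iff₀ (by positivity)] at h3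
    push_cast at h3
    linarith
  have e1' : 4 * a * d - D ≤ 4 * N * D := by exact_mod_cast e1
  have e2' : 4 * (N + 1) * D ≤ 4 * (a + 2) * d + D := by exact_mod_cast e2
  constructor <;> linarith

/-- the three letters are never needed together -/
lemma no_win {K D a1 a2 a3 t N1 N2 N3 : ℤ} (hK : 1 ≤ K) (h1 : 1 ≤ a1) (h2 : 1 ≤ a2) (h3 : 1 ≤ a3)
    (hw : IsCoprime (a3 - a2) (3 * a3 + a1)) (h4 : (4:ℤ) ∣ a1 + D)
    (hbig : (|a3 - a2| + (3 * a3 + a1) + (a1 + 3 * a2)) * (a1 + a2 + a3 + 1) ≤ D)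
    (u1 : 4 * t * (K * (D + a1) + 1) - (4 * N1 + 2) * (4 * K * D + 1)
      ≤ 4 * (K * (D + a1) + 1) - (4 * K * D + 1))
    (l1 : -(4 * (K * (D + a1) + 1) - (4 * K * D + 1))
      ≤ 4 * t * (K * (D + a1) + 1) - (4 * N1 + 2) * (4 * K * D + 1))
    (u2 : 4 * t * (K * (D + a2)) - (4 * N2 + 2) * (4 * K * D + 1)
      ≤ 4 * (K * (D + a2)) - (4 * K * D + 1))
    (l2 : -(4 * (K * (D + a2)) - (4 * K * D + 1))
      ≤ 4 * t * (K * (D + a2)) - (4 * N2 + 2) * (4 * K * D + 1))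
    (u3 : 4 * t * (K * (D + a3)) - (4 * N3 + 2) * (4 * K * D + 1)
      ≤ 4 * (K * (D + a3)) - (4 * K * D + 1))
    (l3 : -(4 * (K * (D + a3)) - (4 * K * D + 1))
      ≤ 4 * t * (K * (D + a3)) - (4 * N3 + 2) * (4 * K * D + 1)) : False := by
  set n1 := 4 * N1 + 2 - t with hn1
  set n2 := 4 * N2 + 2 - t with hn2
  set n3 := 4 * N3 + 2 - t with hn3
  have p1 : K ≤ K * a1 := le_mul_of_one_le_right (by linarith) h1
  have p2 : K ≤ K * a2 := le_mul_of_one_le_right (by linarith) h2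
  have p3 : K ≤ K * a3 := le_mul_of_one_le_right (by linarith) h3
  have hD8 : 8 * (a1 + a2 + a3 + 1) ≤ D := by
    have s1 : 8 ≤ |a3 - a2| + (3 * a3 + a1) + (a1 + 3 * a2) := by
      have := abs_nonneg (a3 - a2)
      linarith
    have s2 := mul_le_mul_of_nonneg_right s1 (by linarith : 0 ≤ a1 + a2 + a3 + 1)
    linarith
  have hDpos : 1 ≤ D := by linarith
  -- the three deviations
  set y1 := t * (4 * K * a1 + 3) - n1 * (4 * K * D + 1) with hy1
  set y2 := t * (4 * K * a2 - 1) - n2 * (4 * K * D + 1) with hy2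
  set y3 := t * (4 * K * a3 - 1) - n3 * (4 * K * D + 1) with hy3
  have U1 : y1 ≤ 4 * K * a1 + 3 := by rw [hy1, hn1]; linarith
  have L1 : -(4 * K * a1 + 3) ≤ y1 := by rw [hy1, hn1]; linarith
  have U2 : y2 ≤ 4 * K * a2 - 1 := by rw [hy2, hn2]; linarith
  have L2 : -(4 * K * a2 - 1) ≤ y2 := by rw [hy2, hn2]; linarith
  have U3 : y3 ≤ 4 * K * a3 - 1 := by rw [hy3, hn3]; linarith
  have L3 : -(4 * K * a3 - 1) ≤ y3 := by rw [hy3, hn3]; linarith
  -- the vector n is orthogonal to w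
  have horth : (n1 + 3 * n3) * (a3 - a2) = (n3 - n2) * (3 * a3 + a1) := by
    set z := (n1 + 3 * n3) * (a3 - a2) - (n3 - n2) * (3 * a3 + a1) with hz
    have e1 : (4 * K * D + 1) * z = -((a3 - a2) * y1 + (3 * a3 + a1) * y2 - (a1 + 3 * a2) * y3) := by
      rw [hz, hy1, hy2, hy3]; ring
    have b1 : |y1| ≤ 4 * K * a1 + 3 := abs_le.2 ⟨L1, U1⟩
    have b2 : |y2| ≤ 4 * K * a2 - 1 := abs_le.2 ⟨L2, U2⟩
    have b3 : |y3| ≤ 4 * K * a3 - 1 := abs_le.2 ⟨L3, U3⟩
    have b4 : |(4 * K * D + 1) * z| ≤ |a3 - a2| * |y1| + (3 * a3 + a1) * |y2| + (a1 + 3 * a2) * |y3| := by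
      rw [e1, abs_neg]
      refine le_trans (abs_sub _ _) ?_
      refine add_le_add (le_trans (abs_add_le _ _) ?_) ?_
      · rw [abs_mul, abs_mul, abs_of_nonneg (by linarith : 0 ≤ 3 * a3 + a1)]
      · rw [abs_mul, abs_of_nonneg (by linarith : 0 ≤ a1 + 3 * a2)]
    have c1 : |a3 - a2| * |y1| ≤ |a3 - a2| * (4 * K * (a1 + a2 + a3 + 1)) := by
      refine mul_le_mul_of_nonneg_left (le_trans b1 ?_) (abs_nonneg _)
      linarith
    have c2 : (3 * a3 + a1) * |y2| ≤ (3 * a3 + a1) * (4 * K * (a1 + a2 + a3 + 1)) := by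
      refine mul_le_mul_of_nonneg_left (le_trans b2 ?_) (by linarith)
      linarith
    have c3 : (a1 + 3 * a2) * |y3| ≤ (a1 + 3 * a2) * (4 * K * (a1 + a2 + a3 + 1)) := by
      refine mul_le_mul_of_nonneg_left (le_trans b3 ?_) (by linarith)
      linarith
    have c4 : |(4 * K * D + 1) * z| ≤ 4 * K * D := by
      have c5 : 4 * K * ((|a3 - a2| + (3 * a3 + a1) + (a1 + 3 * a2)) * (a1 + a2 + a3 + 1))
          ≤ 4 * K * D := mul_le_mul_of_nonneg_left hbig (by linarith)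
      linarith
    have hKD : 0 ≤ 4 * K * D := by positivity
    have hz0 : z = 0 := by
      by_contra hne
      have h5 : 1 ≤ |z| := Int.one_le_abs hne
      rw [abs_mul, abs_of_pos (by linarith : 0 < 4 * K * D + 1)] at c4
      have h6 := mul_le_mul_of_nonneg_left h5 (by linarith : 0 ≤ 4 * K * D + 1)
      linarith
    rw [hz] at hz0
    linarith
  obtain ⟨m, hm⟩ : (3 * a3 + a1) ∣ (n1 + 3 * n3) := by
    have h5 : (3 * a3 + a1) ∣ (n1 + 3 * n3) * (a3 - a2) := ⟨n3 - n2, by rw [horth]; ring⟩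
    exact hw.symm.dvd_of_dvd_mul_right h5
  have hm2 : n3 - n2 = m * (a3 - a2) := by
    have h5 : (3 * a3 + a1) ≠ 0 := by linarith
    apply mul_right_cancel₀ h5
    rw [← horth, hm]; ring
  set l := m * a3 - n3 with hl
  have k1 : n1 = m * a1 + 3 * l := by rw [hl]; linarith
  have k2 : n2 = m * a2 - l := by rw [hl]; linarith
  have k3 : n3 = m * a3 - l := by rw [hl]; linarith
  -- shift
  set Y := t - l * (4 * K * D + 1) with hY
  set m' := m - 4 * K * l with hm'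
  set y := Y - m' * D with hy
  set X := 4 * K * y - m' with hX
  have f1 : y1 = a1 * X + 3 * Y := by rw [hy1, k1, hX, hy, hm', hY]; ring
  have f2 : y2 = a2 * X - Y := by rw [hy2, k2, hX, hy, hm', hY]; ring
  have g1 : (a1 + 3 * a2) * X ≤ 4 * K * (a1 + 3 * a2) := by
    have : (a1 + 3 * a2) * X = y1 + 3 * y2 := by rw [f1, f2]; ring
    rw [this]; linarith
  have g2 : -(4 * K * (a1 + 3 * a2)) ≤ (a1 + 3 * a2) * X := by
    have : (a1 + 3 * a2) * X = y1 + 3 * y2 := by rw [f1, f2]; ring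
    rw [this]; linarith
  have X1 : X ≤ 4 * K := by
    by_contra hcon
    push Not at hcon
    have h5 := mul_le_mul_of_nonneg_left (by omega : 4 * K + 1 ≤ X)
      (by linarith : 0 ≤ a1 + 3 * a2)
    linarith
  have X2 : -(4 * K) ≤ X := by
    by_contra hcon
    push Not at hcon
    have h5 := mul_le_mul_of_nonneg_left (by omega : X ≤ -(4 * K) - 1)
      (by linarith : 0 ≤ a1 + 3 * a2)
    linarith
  have hY1 : 3 * Y ≤ 8 * K * a1 + 3 := by
    have h5 : 3 * Y = y1 - a1 * X := by rw [f1]; ring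
    have h6 := mul_le_mul_of_nonneg_left X2 (by linarith : 0 ≤ a1)
    rw [h5]
    linarith
  have hY2 : -(8 * K * a1 + 3) ≤ 3 * Y := by
    have h5 : 3 * Y = y1 - a1 * X := by rw [f1]; ring
    have h6 := mul_le_mul_of_nonneg_left X1 (by linarith : 0 ≤ a1)
    rw [h5]
    linarith
  have hDa : a1 + 3 ≤ D := by linarith
  -- m' is small
  have hm1 : m' < 4 * K := by
    by_contra hcon
    push Not at hcon
    have h5 : 4 * K * y ≤ 4 * K + m' := by rw [hX] at X1; linarith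
    have h6 : -(4 * K) + m' ≤ 4 * K * y := by rw [hX] at X2; linarith
    -- y ≥ 0
    have h7 : 0 ≤ y := by
      by_contra h8
      push Not at h8
      have h9 := mul_le_mul_of_nonneg_left (by omega : y ≤ -1) (by linarith : 0 ≤ 4 * K)
      linarith
    have h8 : Y = y + m' * D := by rw [hy]; ring
    have h9 : m' * D ≤ Y := by rw [h8]; linarith
    have h10 : 4 * K * (a1 + 3) ≤ m' * D := by
      have : 4 * K * (a1 + 3) ≤ m' * (a1 + 3) := mul_le_mul_of_nonneg_right hcon (by linarith)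
      have : m' * (a1 + 3) ≤ m' * D := mul_le_mul_of_nonneg_left hDa (by linarith)
      linarith
    linarith
  have hm2' : -(4 * K) < m' := by
    by_contra hcon
    push Not at hcon
    have h5 : 4 * K * y ≤ 4 * K + m' := by rw [hX] at X1; linarith
    have h7 : y ≤ 0 := by
      by_contra h8
      push Not at h8
      have h9 := mul_le_mul_of_nonneg_left (by omega : 1 ≤ y) (by linarith : 0 ≤ 4 * K)
      linarith
    have h8 : Y = y + m' * D := by rw [hy]; ring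
    have h9 : Y ≤ m' * D := by rw [h8]; linarith
    have h10 : m' * D ≤ -(4 * K * (a1 + 3)) := by
      have : m' * (a1 + 3) ≤ -(4 * K) * (a1 + 3) := mul_le_mul_of_nonneg_right hcon (by linarith)
      have : m' * D ≤ m' * (a1 + 3) := mul_le_mul_of_nonpos_left hDa (by linarith)
      linarith
    linarith
  have hy1' : y ≤ 1 := by
    by_contra hcon
    push Not at hcon
    have : 4 * K * 2 ≤ 4 * K * y := mul_le_mul_of_nonneg_left hcon (by linarith)
    rw [hX] at X1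
    linarith
  have hy2' : -1 ≤ y := by
    by_contra hcon
    push Not at hcon
    have : 4 * K * y ≤ 4 * K * (-2) := mul_le_mul_of_nonneg_left (by omega) (by linarith)
    rw [hX] at X2
    linarith
  -- the congruence
  obtain ⟨s, hs⟩ := h4
  have hcong : m' * (a1 + D) + y - 2 = 4 * (N1 - K * D * l - K * a1 * l - l) := by
    have e1 : n1 = 4 * N1 + 2 - t := hn1
    have e2 : m' * (a1 + D) + y = m' * a1 + Y := by rw [hy]; ring
    have e3 : m' * a1 = n1 - 3 * l - 4 * K * l * a1 := by rw [hm', k1]; ring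
    rw [e2, e3, e1, hY]; ring
  rw [hs] at hcong
  have h5 : y - 2 = 4 * ((N1 - K * D * l - K * a1 * l - l) - m' * s) := by linarith
  omega

end Pool.Agent.H88.BR
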