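import Mathlib

/-!
# Terms built with rational constants, the four operations, the floor and case distinctions
-/

set_option autoImplicit false

namespace Pool.Agent.H88.BR

/-- Terms in the variables `x₁, …, xₙ`: variables, rational constants, sums, differences, products,
quotients, the floor, and case distinctions according to a sign. -/
inductive Tm (n : ℕ) : Type
  | var (i : Fin n)
  | const (q : ℚ)
  | add (s t : Tm n)
  | sub (s t : Tm n)
  | mul (s t : Tm n)
  | div (s t : Tm n)
  | floor (s : Tm n)
  | ite (s t u : Tm n)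

/-- The value of a term: `x / 0 = 0`, and `ite s t u` is `t` if `s > 0` and `u` otherwise. -/
noncomputable def Tm.eval {n : ℕ} (x : Fin n → ℝ) : Tm n → ℝ
  | .var i => x i
  | .const q => (q : ℝ)
  | .add s t => s.eval x + t.eval x
  | .sub s t => s.eval x - t.eval x
  | .mul s t => s.eval x * t.eval x
  | .div s t => s.eval x / t.eval x
  | .floor s => ((⌊s.eval x⌋ : ℤ) : ℝ)
  | .ite s t u => if 0 < s.eval x then t.eval x else u.eval x

/-- substitution -/
def Tm.subst {n m : ℕ} (f : Fin n → Tm m) : Tm n → Tm m
  | .var i => f i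
  | .const q => .const q
  | .add s t => .add (s.subst f) (t.subst f)
  | .sub s t => .sub (s.subst f) (t.subst f)
  | .mul s t => .mul (s.subst f) (t.subst f)
  | .div s t => .div (s.subst f) (t.subst f)
  | .floor s => .floor (s.subst f)
  | .ite s t u => .ite (s.subst f) (t.subst f) (u.subst f)

lemma Tm.eval_subst {n m : ℕ} (f : Fin n → Tm m) (x : Fin m → ℝ) (t : Tm n) :
    (t.subst f).eval x = t.eval (fun i => (f i).eval x) := by
  induction t with
  | var i => rfl
  | const q => rfl
  | add s t hs ht => show _ + _ = _ + _; rw [hs, ht]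
  | sub s t hs ht => show _ - _ = _ - _; rw [hs, ht]
  | mul s t hs ht => show _ * _ = _ * _; rw [hs, ht]
  | div s t hs ht => show _ / _ = _ / _; rw [hs, ht]
  | floor s hs => show ((⌊_⌋ : ℤ) : ℝ) = ((⌊_⌋ : ℤ) : ℝ); rw [hs]
  | ite s t u hs ht hu => show (if 0 < _ then _ else _) = (if 0 < _ then _ else _); rw [hs, ht, hu]

/-- the sum of the variables is a term -/
lemma exists_sum (n : ℕ) : ∃ s : Tm n, ∀ x : Fin n → ℝ, s.eval x = ∑ i, x i := by
  have h : ∀ l : Finset (Fin n), ∃ s : Tm n, ∀ x : Fin n → ℝ, s.eval x = ∑ i ∈ l, x i := by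
    intro l
    induction l using Finset.induction_on with
    | empty => exact ⟨.const 0, fun x => by simp [Tm.eval]⟩
    | insert a l ha ih =>
      obtain ⟨s, hs⟩ := ih
      refine ⟨.add (.var a) s, fun x => ?_⟩
      show x a + s.eval x = _
      rw [hs, Finset.sum_insert ha]
  exact h Finset.univ

end Pool.Agent.H88.BR
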