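import Pool.Agent.H88.BR.Floor
import Pool.Agent.H88.BR.Term

/-!
# The signs of real polynomials in terms are constant on the family, after shrinking the parameter set
-/

set_option autoImplicit false

namespace Pool.Agent.H88.BR

open Polynomial Filter

/-- the family: `v = (α₁, α₂, ρ)` -/
noncomputable def dR (v : V) (T : ℝ) : Fin 4 → ℝ :=
  ![T ^ 3 * (T + v 2 + v 0) + 1, T ^ 3 * (T + v 2 + v 1), T ^ 3 * (T + v 2 + 1),
    T ^ 3 * (T + v 2 - v 0 - v 1 - 1)]

lemma rep_var {U : Set V} (i : Fin 4) : Rep True U (fun v T => dR v T i) := by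
  have e : ∀ (a : (nice True U)[X]) (g : V → ℝ → ℝ), (∀ v T, pv a v T = g v T) →
      Rep True U g := by
    intro a g h
    exact (rep_poly a).congr fun q _ => Filter.Eventually.of_forall fun k => (h _ _).symm
  have pc : ∀ (j : Fin 3) (v : V) (T : ℝ), pv (C (crd True U j)) v T = v j := by
    intro j v T
    rw [pv_C]
    rfl
  fin_cases i
  · refine e (X ^ 3 * (X + C (crd True U 2) + C (crd True U 0)) + 1) _ fun v T => ?_
    rw [pv_add, pv_mul, pv_pow, pv_add, pv_add, pv_X, pc, pc, pv_one]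
    rfl
  · refine e (X ^ 3 * (X + C (crd True U 2) + C (crd True U 1))) _ fun v T => ?_
    rw [pv_mul, pv_pow, pv_add, pv_add, pv_X, pc, pc]
    rfl
  · refine e (X ^ 3 * (X + C (crd True U 2) + 1)) _ fun v T => ?_
    rw [pv_mul, pv_pow, pv_add, pv_add, pv_X, pc, pv_one]
    rfl
  · refine e (X ^ 3 * (X + C (crd True U 2) - C (crd True U 0) - C (crd True U 1) - 1)) _
      fun v T => ?_
    rw [pv_mul, pv_pow, pv_sub, pv_sub, pv_sub, pv_add, pv_X, pc, pc, pc, pv_one]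
    rfl

/-- every term is representable after shrinking the set -/
theorem rep_term (τ : Tm 4) : ∀ U : Set V, IsOpen U → U.Nonempty →
    ∃ U', U' ⊆ U ∧ IsOpen U' ∧ U'.Nonempty ∧ Rep True U' (fun v T => τ.eval (dR v T)) := by
  induction τ with
  | var i => exact fun U hU hne => ⟨U, Set.Subset.refl _, hU, hne, rep_var i⟩
  | const q => exact fun U hU hne => ⟨U, Set.Subset.refl _, hU, hne, rep_const q⟩
  | add s t hs ht =>
    intro U hU hne
    obtain ⟨U₁, a1, a2, a3, a4⟩ := hs U hU hne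
    obtain ⟨U₂, b1, b2, b3, b4⟩ := ht U₁ a2 a3
    exact ⟨U₂, b1.trans a1, b2, b3, (a4.mono b1).add b4⟩
  | sub s t hs ht =>
    intro U hU hne
    obtain ⟨U₁, a1, a2, a3, a4⟩ := hs U hU hne
    obtain ⟨U₂, b1, b2, b3, b4⟩ := ht U₁ a2 a3
    refine ⟨U₂, b1.trans a1, b2, b3, ?_⟩
    refine ((a4.mono b1).add ((rep_const (-1)).mul b4)).congr fun q _ =>
      Filter.Eventually.of_forall fun k => ?_
    show _ - _ = _ + ((-1 : ℚ) : ℝ) * _
    push_cast
    ring
  | mul s t hs ht =>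
    intro U hU hne
    obtain ⟨U₁, a1, a2, a3, a4⟩ := hs U hU hne
    obtain ⟨U₂, b1, b2, b3, b4⟩ := ht U₁ a2 a3
    exact ⟨U₂, b1.trans a1, b2, b3, (a4.mono b1).mul b4⟩
  | div s t hs ht =>
    intro U hU hne
    obtain ⟨U₁, a1, a2, a3, a4⟩ := hs U hU hne
    obtain ⟨U₂, b1, b2, b3, b4⟩ := ht U₁ a2 a3
    obtain ⟨U₃, c1, c2, c3, c4⟩ := b4.inv b2 b3
    exact ⟨U₃, c1.trans (b1.trans a1), c2, c3, (a4.mono (c1.trans b1)).mul c4⟩
  | floor s hs =>
    intro U hU hne
    obtain ⟨U₁, a1, a2, a3, a4⟩ := hs U hU hne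
    obtain ⟨U₂, b1, b2, b3, b4⟩ := a4.floor a2 a3
    exact ⟨U₂, b1.trans a1, b2, b3, b4⟩
  | ite s t u hs ht hu =>
    intro U hU hne
    obtain ⟨U₁, a1, a2, a3, a4⟩ := hs U hU hne
    obtain ⟨U₂, b1, b2, b3, σ, b4⟩ := a4.sign a2 a3
    by_cases hσ : σ = 1
    · obtain ⟨U₃, c1, c2, c3, c4⟩ := ht U₂ b2 b3
      refine ⟨U₃, c1.trans (b1.trans a1), c2, c3, c4.congr fun q hq => ?_⟩
      filter_upwards [b4 q (c1 hq)] with k hk
      show (if 0 < s.eval _ then _ else _) = _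
      rw [if_pos]
      rw [hσ] at hk
      exact sign_eq_one_iff.1 hk
    · obtain ⟨U₃, c1, c2, c3, c4⟩ := hu U₂ b2 b3
      refine ⟨U₃, c1.trans (b1.trans a1), c2, c3, c4.congr fun q hq => ?_⟩
      filter_upwards [b4 q (c1 hq)] with k hk
      show (if 0 < s.eval _ then _ else _) = _
      rw [if_neg]
      intro hpos
      exact hσ (hk.symm.trans (sign_pos hpos))

/-- real polynomials in terms are representable after shrinking the set -/
theorem rep_mv (p : MvPolynomial (Tm 4) ℝ) : ∀ U : Set V, IsOpen U → U.Nonempty →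
    ∃ U', U' ⊆ U ∧ IsOpen U' ∧ U'.Nonempty ∧
      Rep False U' (fun v T => MvPolynomial.eval (fun τ : Tm 4 => τ.eval (dR v T)) p) := by
  induction p using MvPolynomial.induction_on with
  | C a =>
    intro U hU hne
    refine ⟨U, Set.Subset.refl _, hU, hne, (rep_rconst a).congr fun q _ =>
      Filter.Eventually.of_forall fun k => ?_⟩
    rw [MvPolynomial.eval_C]
  | add p q hp hq =>
    intro U hU hne
    obtain ⟨U₁, a1, a2, a3, a4⟩ := hp U hU hne
    obtain ⟨U₂, b1, b2, b3, b4⟩ := hq U₁ a2 a3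
    refine ⟨U₂, b1.trans a1, b2, b3, ((a4.mono b1).add b4).congr fun q _ =>
      Filter.Eventually.of_forall fun k => ?_⟩
    rw [map_add]
  | mul_X p τ hp =>
    intro U hU hne
    obtain ⟨U₁, a1, a2, a3, a4⟩ := hp U hU hne
    obtain ⟨U₂, b1, b2, b3, b4⟩ := rep_term τ U₁ a2 a3
    refine ⟨U₂, b1.trans a1, b2, b3, ((a4.mono b1).mul b4.fgt).congr fun q _ =>
      Filter.Eventually.of_forall fun k => ?_⟩
    rw [map_mul, MvPolynomial.eval_X]

/-- the signs of finitely many real polynomials in terms -/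
theorem sign_const (P : Finset (MvPolynomial (Tm 4) ℝ)) : ∀ U : Set V, IsOpen U → U.Nonempty →
    ∃ U', U' ⊆ U ∧ IsOpen U' ∧ U'.Nonempty ∧ ∃ s : MvPolynomial (Tm 4) ℝ → SignType,
      ∀ p ∈ P, ∀ q : Fin 3 → ℚ, toR q ∈ U' → ∀ᶠ k : ℕ in atTop,
        SignType.sign (MvPolynomial.eval
          (fun τ : Tm 4 => τ.eval (dR (toR q) ((k.factorial : ℕ) : ℝ))) p) = s p := by
  classical
  induction P using Finset.induction_on with
  | empty =>
    exact fun U hU hne => ⟨U, Set.Subset.refl _, hU, hne, fun _ => 0, fun p hp => by simp at hp⟩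
  | insert p P hpP ih =>
    intro U hU hne
    obtain ⟨U₁, a1, a2, a3, s, a4⟩ := ih U hU hne
    obtain ⟨U₂, b1, b2, b3, b4⟩ := rep_mv p U₁ a2 a3
    obtain ⟨U₃, c1, c2, c3, σ, c4⟩ := b4.sign b2 b3
    refine ⟨U₃, c1.trans (b1.trans a1), c2, c3, Function.update s p σ, ?_⟩
    intro p' hp' q hq
    rcases Finset.mem_insert.1 hp' with rfl | h
    · rw [Function.update_self]
      exact c4 q hq
    · have hne' : p' ≠ p := fun e => hpP (e ▸ h)
      rw [Function.update_of_ne hne']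
      exact a4 p' h q (b1 (c1 hq))

end Pool.Agent.H88.BR
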