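import Pool.Agent.H88.BR.Inst
import Pool.Agent.H88.BR.Soft

/-!
# The good and the bad parameters are dense
-/

set_option autoImplicit false

namespace Pool.Agent.H88.BR

open Filter Pool.Agent.H78.BN

/-- the rational point with numerators `a, b, r` and denominator `A` -/
def pt (A a b r : ℕ) : Fin 3 → ℚ := ![(a : ℚ) / A, (b : ℚ) / A, (r : ℚ) / A]

/-- the cell -/
def cell : Set V := {v | 0 < v 0 ∧ 0 < v 1 ∧ v 1 < 1 ∧ 0 < v 2}

lemma isOpen_cell : IsOpen cell := by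
  have h0 : Continuous fun v : V => v 0 := continuous_apply 0
  have h1 : Continuous fun v : V => v 1 := continuous_apply 1
  have h2 : Continuous fun v : V => v 2 := continuous_apply 2
  exact (isOpen_lt continuous_const h0).inter ((isOpen_lt continuous_const h1).inter
    ((isOpen_lt h1 continuous_const).inter (isOpen_lt continuous_const h2)))

lemma nonempty_cell : cell.Nonempty :=
  ⟨![1, 1/2, 1], by show (0:ℝ) < 1; norm_num, by show (0:ℝ) < 1/2; norm_num,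
    by show (1/2:ℝ) < 1; norm_num, by show (0:ℝ) < 1; norm_num⟩

lemma approx {x C : ℝ} {A a : ℕ → ℕ} (hA : Tendsto (fun j => (A j : ℝ)) atTop atTop)
    (h : ∀ j, |(a j : ℝ) - x * A j| ≤ C) : Tendsto (fun j => (a j : ℝ) / A j) atTop (nhds x) := by
  have hA0 : ∀ᶠ j in atTop, (0:ℝ) < A j := hA.eventually_gt_atTop 0
  have h1 : Tendsto (fun j => C / (A j : ℝ)) atTop (nhds 0) := hA.const_div_atTop C
  rw [tendsto_iff_dist_tendsto_zero]
  refine squeeze_zero' (Filter.Eventually.of_forall fun j => dist_nonneg) ?_ h1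
  filter_upwards [hA0] with j hj
  rw [Real.dist_eq]
  have h2 : (a j : ℝ) / A j - x = ((a j : ℝ) - x * A j) / A j := by
    field_simp
  rw [h2, abs_div, abs_of_pos hj]
  exact div_le_div_of_nonneg_right (h j) hj.le

lemma pt_tendsto {v : V} {C : ℝ} {A a b r : ℕ → ℕ} (hA : Tendsto (fun j => (A j : ℝ)) atTop atTop)
    (ha : ∀ j, |(a j : ℝ) - v 0 * A j| ≤ C) (hb : ∀ j, |(b j : ℝ) - v 1 * A j| ≤ C)
    (hr : ∀ j, |(r j : ℝ) - v 2 * A j| ≤ C) :
    Tendsto (fun j => toR (pt (A j) (a j) (b j) (r j))) atTop (nhds v) := by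
  rw [tendsto_pi_nhds]
  intro i
  fin_cases i
  · refine (approx hA ha).congr fun j => ?_
    show (a j : ℝ) / A j = (((a j : ℚ) / A j : ℚ) : ℝ)
    push_cast
    rfl
  · refine (approx hA hb).congr fun j => ?_
    show (b j : ℝ) / A j = (((b j : ℚ) / A j : ℚ) : ℝ)
    push_cast
    rfl
  · refine (approx hA hr).congr fun j => ?_
    show (r j : ℝ) / A j = (((r j : ℚ) / A j : ℚ) : ℝ)
    push_cast
    rfl

/-- rounding -/
lemma round_bound {x : ℝ} (hx : 0 ≤ x) (m e : ℕ) (hm : 0 < m) (he : e ≤ 2 * m) :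
    |((m * ⌊x / m⌋₊ + e : ℕ) : ℝ) - x| ≤ 2 * m := by
  have hmR : (0:ℝ) < m := by exact_mod_cast hm
  have h1 : (⌊x / m⌋₊ : ℝ) ≤ x / m := Nat.floor_le (by positivity)
  have h2 : x / m < ⌊x / m⌋₊ + 1 := Nat.lt_floor_add_one _
  have h3 : (m:ℝ) * ⌊x / m⌋₊ ≤ x := by
    have := mul_le_mul_of_nonneg_left h1 hmR.le
    rwa [mul_div_cancel₀ _ hmR.ne'] at this
  have h4 : x < m * (⌊x / m⌋₊ + 1) := by
    have := mul_lt_mul_of_pos_left h2 hmR
    rwa [mul_div_cancel₀ _ hmR.ne'] at this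
  have h5 : (e:ℝ) ≤ 2 * m := by exact_mod_cast he
  have h6 : (0:ℝ) ≤ e := by positivity
  push_cast
  rw [abs_le]
  constructor <;> linarith

/-- **The good parameters are dense.** -/
theorem dense_good {U : Set V} (hU : IsOpen U) (hne : U.Nonempty) (hc : U ⊆ cell) :
    ∃ A a b r : ℕ, 1 ≤ A ∧ 1 ≤ a ∧ 1 ≤ b ∧ b < A ∧ IsCoprime ((A:ℤ) - b) (3 * A + a) ∧ 4 ∣ a + r ∧
      toR (pt A a b r) ∈ U := by
  obtain ⟨v, hv⟩ := hne
  obtain ⟨h0, h1, h1', h2⟩ := hc hv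
  have hpos : 0 < 1 - v 1 := by linarith
  let A : ℕ → ℕ := fun j => ⌈(2:ℝ) ^ j / (1 - v 1)⌉₊
  have hA1 : ∀ j, (2:ℝ) ^ j ≤ (1 - v 1) * A j := by
    intro j
    have h3 : (2:ℝ) ^ j / (1 - v 1) ≤ A j := Nat.le_ceil _
    rw [div_le_iff₀ hpos] at h3
    linarith
  have hA2 : ∀ j, (1 - v 1) * A j < (2:ℝ) ^ j + (1 - v 1) := by
    intro j
    have h3 : (A j : ℝ) < (2:ℝ) ^ j / (1 - v 1) + 1 := Nat.ceil_lt_add_one (by positivity)
    have h4 := mul_lt_mul_of_pos_left h3 hpos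
    have h5 : (1 - v 1) * ((2:ℝ) ^ j / (1 - v 1) + 1) = (2:ℝ) ^ j + (1 - v 1) := by
      field_simp
    rwa [h5] at h4
  have hApos : ∀ j, 1 ≤ A j := by
    intro j
    have : 0 < A j := Nat.ceil_pos.2 (by positivity)
    exact this
  have hAR : ∀ j, (1:ℝ) ≤ A j := fun j => by exact_mod_cast hApos j
  have hle : ∀ j, 2 ^ j < A j := by
    intro j
    have h3 := hA1 j
    have h4 : 0 < v 1 * A j := mul_pos h1 (by linarith [hAR j])
    have h5 : (2:ℝ) ^ j < A j := by linarith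
    exact_mod_cast h5
  have hAt : Tendsto (fun j => (A j : ℝ)) atTop atTop := by
    refine tendsto_atTop_mono (fun j => ?_) (tendsto_pow_atTop_atTop_of_one_lt (by norm_num : (1:ℝ) < 2))
    have := hle j
    exact_mod_cast this.le
  let a : ℕ → ℕ := fun j => 2 * ⌊v 0 * A j / (2:ℕ)⌋₊ + (2 + (A j + 1) % 2)
  let b : ℕ → ℕ := fun j => A j - 2 ^ j
  let r : ℕ → ℕ := fun j => 4 * ⌊v 2 * A j / (4:ℕ)⌋₊ + (4 + (3 * a j) % 4)
  have hbR : ∀ j, (b j : ℝ) = A j - 2 ^ j := by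
    intro j
    show ((A j - 2 ^ j : ℕ) : ℝ) = _
    rw [Nat.cast_sub (hle j).le]
    push_cast
    rfl
  have ht := pt_tendsto (v := v) (C := 8) (A := A) (a := a) (b := b) (r := r) hAt
    (fun j => by
      have h3 : 0 ≤ v 0 * A j := mul_nonneg h0.le (by positivity)
      have h4 := round_bound h3 2 (2 + (A j + 1) % 2) (by norm_num) (by omega)
      refine le_trans h4 (by norm_num))
    (fun j => by
      rw [hbR, abs_le]
      have := hA1 j
      have := hA2 j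
      constructor <;> linarith)
    (fun j => by
      have h3 : 0 ≤ v 2 * A j := mul_nonneg h2.le (by positivity)
      have h4 := round_bound h3 4 (4 + (3 * a j) % 4) (by norm_num) (by omega)
      refine le_trans h4 (by norm_num))
  obtain ⟨j, hj⟩ := (ht.eventually (hU.mem_nhds hv)).exists
  have hlej := hle j
  have hpow : 0 < 2 ^ j := by positivity
  refine ⟨A j, a j, b j, r j, hApos j, ?_, ?_, ?_, ?_, ?_, hj⟩
  · show 1 ≤ 2 * ⌊v 0 * A j / (2:ℕ)⌋₊ + (2 + (A j + 1) % 2)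
    omega
  · show 1 ≤ A j - 2 ^ j
    omega
  · show A j - 2 ^ j < A j
    omega
  · have e1 : ((A j : ℕ) : ℤ) - ((b j : ℕ) : ℤ) = 2 ^ j := by
      show ((A j : ℕ) : ℤ) - ((A j - 2 ^ j : ℕ) : ℤ) = 2 ^ j
      rw [Nat.cast_sub hlej.le]
      push_cast
      ring
    have e2 : ∃ t : ℕ, 3 * A j + a j = 2 * t + 1 := by
      have ea : a j = 2 * ⌊v 0 * A j / (2:ℕ)⌋₊ + (2 + (A j + 1) % 2) := rfl
      rw [ea]
      generalize ⌊v 0 * A j / (2:ℕ)⌋₊ = x
      generalize A j = y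
      exact ⟨(3 * y + (2 * x + (2 + (y + 1) % 2))) / 2, by omega⟩
    obtain ⟨t, ht'⟩ := e2
    have e3 : 3 * ((A j : ℕ) : ℤ) + ((a j : ℕ) : ℤ) = 2 * t + 1 := by exact_mod_cast ht'
    rw [e1, e3]
    apply IsCoprime.pow_left
    exact ⟨-t, 1, by ring⟩
  · show 4 ∣ a j + (4 * ⌊v 2 * A j / (4:ℕ)⌋₊ + (4 + (3 * a j) % 4))
    omega

/-- **The bad parameters are dense.** -/
theorem dense_bad {U : Set V} (hU : IsOpen U) (hne : U.Nonempty) (hc : U ⊆ cell) :
    ∃ A a b r : ℕ, 1 ≤ A ∧ 1 ≤ a ∧ 1 ≤ b ∧ b < A ∧ Even A ∧ Even a ∧ Even b ∧ Odd r ∧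
      toR (pt A a b r) ∈ U := by
  obtain ⟨v, hv⟩ := hne
  obtain ⟨h0, h1, h1', h2⟩ := hc hv
  let A : ℕ → ℕ := fun j => 2 * (j + 1)
  have hAt : Tendsto (fun j => (A j : ℝ)) atTop atTop := by
    refine tendsto_atTop_mono (fun j => ?_) (tendsto_natCast_atTop_atTop (R := ℝ))
    show (j : ℝ) ≤ ((2 * (j + 1) : ℕ) : ℝ)
    exact_mod_cast (by omega : j ≤ 2 * (j + 1))
  let a : ℕ → ℕ := fun j => 2 * ⌊v 0 * A j / (2:ℕ)⌋₊ + 2
  let b : ℕ → ℕ := fun j => 2 * ⌊v 1 * A j / (2:ℕ)⌋₊ + 2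
  let r : ℕ → ℕ := fun j => 2 * ⌊v 2 * A j / (2:ℕ)⌋₊ + 1
  have ht := pt_tendsto (v := v) (C := 4) (A := A) (a := a) (b := b) (r := r) hAt
    (fun j => by
      have h3 : 0 ≤ v 0 * A j := mul_nonneg h0.le (by positivity)
      have h4 := round_bound h3 2 2 (by norm_num) (by omega)
      refine le_trans h4 (by norm_num))
    (fun j => by
      have h3 : 0 ≤ v 1 * A j := mul_nonneg h1.le (by positivity)
      have h4 := round_bound h3 2 2 (by norm_num) (by omega)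
      refine le_trans h4 (by norm_num))
    (fun j => by
      have h3 : 0 ≤ v 2 * A j := mul_nonneg h2.le (by positivity)
      have h4 := round_bound h3 2 1 (by norm_num) (by omega)
      refine le_trans h4 (by norm_num))
  obtain ⟨j, hj⟩ := (ht.eventually (hU.mem_nhds hv)).exists
  have hA1 : 1 ≤ A j := by show 1 ≤ 2 * (j + 1); omega
  have hbA : b j < A j := by
    have h3 : (toR (pt (A j) (a j) (b j) (r j))) 1 < 1 := (hc hj).2.2.1
    have h4 : ((b j : ℝ)) / A j < 1 := by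
      have e : (toR (pt (A j) (a j) (b j) (r j))) 1 = (b j : ℝ) / A j := by
        show ((((b j : ℕ) : ℚ) / ((A j : ℕ) : ℚ) : ℚ) : ℝ) = _
        push_cast
        rfl
      rwa [e] at h3
    rw [div_lt_one (by exact_mod_cast hA1)] at h4
    exact_mod_cast h4
  refine ⟨A j, a j, b j, r j, hA1, ?_, ?_, hbA, ⟨j + 1, ?_⟩, ⟨⌊v 0 * A j / (2:ℕ)⌋₊ + 1, ?_⟩,
    ⟨⌊v 1 * A j / (2:ℕ)⌋₊ + 1, ?_⟩, ⟨⌊v 2 * A j / (2:ℕ)⌋₊, rfl⟩, hj⟩
  · show 1 ≤ 2 * ⌊v 0 * A j / (2:ℕ)⌋₊ + 2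
    omega
  · show 1 ≤ 2 * ⌊v 1 * A j / (2:ℕ)⌋₊ + 2
    omega
  · show 2 * (j + 1) = (j + 1) + (j + 1)
    ring
  · show 2 * ⌊v 0 * A j / (2:ℕ)⌋₊ + 2 = _
    ring
  · show 2 * ⌊v 1 * A j / (2:ℕ)⌋₊ + 2 = _
    ring

/-- the instance of a rational parameter -/
lemma inst_eq {A a b r T K : ℕ} (hA : 1 ≤ A) (hT : A * K = T ^ 3) (hle : a + b + A ≤ A * T + r) :
    (fun i => ((inst K (A * T + r) a b A i : ℕ) : ℝ)) = dR (toR (pt A a b r)) (T : ℝ) := by
  have hAR : (A:ℝ) ≠ 0 := by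
    have : (1:ℝ) ≤ A := by exact_mod_cast hA
    linarith
  have hTR : (A:ℝ) * K = (T:ℝ) ^ 3 := by exact_mod_cast hT
  have p0 : toR (pt A a b r) 0 = (a:ℝ) / A := by
    show ((((a : ℕ) : ℚ) / ((A : ℕ) : ℚ) : ℚ) : ℝ) = _
    push_cast
    rfl
  have p1 : toR (pt A a b r) 1 = (b:ℝ) / A := by
    show ((((b : ℕ) : ℚ) / ((A : ℕ) : ℚ) : ℚ) : ℝ) = _
    push_cast
    rfl
  have p2 : toR (pt A a b r) 2 = (r:ℝ) / A := by
    show ((((r : ℕ) : ℚ) / ((A : ℕ) : ℚ) : ℚ) : ℝ) = _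
    push_cast
    rfl
  funext i
  fin_cases i
  · show ((inst K (A * T + r) a b A 0 : ℕ) : ℝ) =
      (T:ℝ) ^ 3 * (T + toR (pt A a b r) 2 + toR (pt A a b r) 0) + 1
    rw [inst_zero, p0, p2, ← hTR]
    push_cast
    field_simp
  · show ((inst K (A * T + r) a b A 1 : ℕ) : ℝ) =
      (T:ℝ) ^ 3 * (T + toR (pt A a b r) 2 + toR (pt A a b r) 1)
    rw [inst_one, p1, p2, ← hTR]
    push_cast
    field_simp
  · show ((inst K (A * T + r) a b A 2 : ℕ) : ℝ) = (T:ℝ) ^ 3 * (T + toR (pt A a b r) 2 + 1)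
    rw [inst_two, p2, ← hTR]
    push_cast
    field_simp
  · show ((inst K (A * T + r) a b A 3 : ℕ) : ℝ) =
      (T:ℝ) ^ 3 * (T + toR (pt A a b r) 2 - toR (pt A a b r) 0 - toR (pt A a b r) 1 - 1)
    rw [cast_three hle, p0, p1, p2, ← hTR]
    push_cast
    field_simp
    ring

/-- for large `k` the instances of a good parameter are good -/
theorem good_ev {A a b r : ℕ} (hA : 1 ≤ A) (ha : 1 ≤ a) (hb : 1 ≤ b) (hbA : b < A)
    (hw : IsCoprime ((A:ℤ) - b) (3 * A + a)) (h4 : 4 ∣ a + r) :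
    ∀ᶠ k : ℕ in atTop, ∃ d : Fin 4 → ℕ, (∀ i, 0 < d i) ∧ Finset.univ.gcd d = 1 ∧
      (fun i => (d i : ℝ)) = dR (toR (pt A a b r)) ((k.factorial : ℕ) : ℝ) ∧ Bstar d < 3 / 4 := by
  set B : ℕ := (A - b + (3 * A + a) + (a + 3 * b)) * (a + b + A + 1) with hB
  filter_upwards [Filter.eventually_ge_atTop (4 * A * (A - b)), Filter.eventually_ge_atTop B,
    Filter.eventually_ge_atTop 1] with k hk1 hk2 hk3
  have hM : 1 ≤ 4 * A * (A - b) := Nat.mul_pos (by omega) (by omega)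
  obtain ⟨s, hs⟩ : 4 * A * (A - b) ∣ k.factorial := Nat.dvd_factorial hM hk1
  set T := k.factorial with hT
  have hTpos : 1 ≤ T := Nat.factorial_pos k
  have hTk : k ≤ T := Nat.self_le_factorial k
  set K := 4 * (A - b) * s * T ^ 2 with hK
  have hspos : 1 ≤ s := by
    rcases Nat.eq_zero_or_pos s with h | h
    · rw [h, Nat.mul_zero] at hs; omega
    · exact h
  have hK1 : 1 ≤ K := by
    rw [hK]
    exact Nat.mul_pos (Nat.mul_pos (by omega) hspos) (by positivity)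
  have hAK : A * K = T ^ 3 := by
    rw [hK]
    calc A * (4 * (A - b) * s * T ^ 2) = (4 * A * (A - b) * s) * T ^ 2 := by ring
      _ = T ^ 3 := by rw [← hs]; ring
  have hAT : T ≤ A * T := Nat.le_mul_of_pos_left T (by omega)
  have hBT : B ≤ A * T + r := by omega
  have hB1 : a + b + A + 1 ≤ B := by
    rw [hB]
    exact Nat.le_mul_of_pos_left _ (by omega)
  have hlt : a + b + A < A * T + r := by omega
  refine ⟨inst K (A * T + r) a b A, inst_pos hK1 hlt, ?_, inst_eq hA hAK hlt.le, ?_⟩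
  · apply gcd_inst (by omega)
    have e1 : (A:ℤ) - b = ((A - b : ℕ) : ℤ) := by rw [Nat.cast_sub hbA.le]
    rw [e1]
    apply Int.natCast_dvd_natCast.2
    exact ⟨4 * s * T ^ 2, by rw [hK]; ring⟩
  · apply inst_good hK1 ⟨(A - b) * s * T ^ 2, by rw [hK]; ring⟩ ha hb hA hw
    · obtain ⟨e, he⟩ := h4
      refine ⟨A * (A * (A - b) * s) + e, ?_⟩
      calc a + (A * T + r) = A * T + (a + r) := by ring
        _ = A * (4 * A * (A - b) * s) + 4 * e := by rw [← hs, he]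
        _ = _ := by ring
    · have e1 : (A:ℤ) - b = ((A - b : ℕ) : ℤ) := by rw [Nat.cast_sub hbA.le]
      rw [e1, abs_of_nonneg (by positivity)]
      have e2 : ((B : ℕ) : ℤ) ≤ ((A * T + r : ℕ) : ℤ) := by exact_mod_cast hBT
      rw [hB] at e2
      push_cast at e2 ⊢
      linarith

/-- for large `k` the instances of a bad parameter are bad -/
theorem bad_ev {A a b r : ℕ} (hA : 1 ≤ A) (ha : 1 ≤ a) (hb : 1 ≤ b) (hbA : b < A)
    (eA : Even A) (ea : Even a) (eb : Even b) (or : Odd r) :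
    ∀ᶠ k : ℕ in atTop, ∃ d : Fin 4 → ℕ, (∀ i, 0 < d i) ∧ Finset.univ.gcd d = 1 ∧
      (fun i => (d i : ℝ)) = dR (toR (pt A a b r)) ((k.factorial : ℕ) : ℝ) ∧ ¬ Bstar d < 3 / 4 := by
  set B : ℕ := a + b + A + 1 + 2 * A * (A + r) with hB
  filter_upwards [Filter.eventually_ge_atTop (A * (A - b)), Filter.eventually_ge_atTop B,
    Filter.eventually_ge_atTop 1] with k hk1 hk2 hk3
  have hM : 1 ≤ A * (A - b) := Nat.mul_pos (by omega) (by omega)
  obtain ⟨s, hs⟩ : A * (A - b) ∣ k.factorial := Nat.dvd_factorial hM hk1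
  set T := k.factorial with hT
  have hTpos : 1 ≤ T := Nat.factorial_pos k
  have hTk : k ≤ T := Nat.self_le_factorial k
  set K := (A - b) * s * T ^ 2 with hK
  have hspos : 1 ≤ s := by
    rcases Nat.eq_zero_or_pos s with h | h
    · rw [h, Nat.mul_zero] at hs; omega
    · exact h
  have hK1 : 1 ≤ K := by
    rw [hK]
    exact Nat.mul_pos (Nat.mul_pos (by omega) hspos) (by positivity)
  have hAK : A * K = T ^ 3 := by
    rw [hK]
    calc A * ((A - b) * s * T ^ 2) = (A * (A - b) * s) * T ^ 2 := by ring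
      _ = T ^ 3 := by rw [← hs]; ring
  have hAT : T ≤ A * T := Nat.le_mul_of_pos_left T (by omega)
  have hlt : a + b + A < A * T + r := by
    have : 0 ≤ 2 * A * (A + r) := Nat.zero_le _
    omega
  have hKD : 2 * (A * T + r) ≤ K := by
    have h1 : 2 * A * (A + r) ≤ T := by omega
    have h2 : A * (2 * (A * T + r)) ≤ A * K := by
      rw [hAK]
      calc A * (2 * (A * T + r)) ≤ A * (2 * (A * T + r * T)) := by
            apply Nat.mul_le_mul_left
            apply Nat.mul_le_mul_left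
            have := Nat.le_mul_of_pos_right r hTpos
            omega
        _ = (2 * A * (A + r)) * T := by ring
        _ ≤ T * T := Nat.mul_le_mul_right _ h1
        _ ≤ T * T * T := Nat.le_mul_of_pos_right _ hTpos
        _ = T ^ 3 := by ring
    exact Nat.le_of_mul_le_mul_left h2 (by omega)
  refine ⟨inst K (A * T + r) a b A, inst_pos hK1 hlt, ?_, inst_eq hA hAK hlt.le, ?_⟩
  · apply gcd_inst (by omega)
    have e1 : (A:ℤ) - b = ((A - b : ℕ) : ℤ) := by rw [Nat.cast_sub hbA.le]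
    rw [e1]
    apply Int.natCast_dvd_natCast.2
    exact ⟨s * T ^ 2, by rw [hK]; ring⟩
  · have eAT : Even (A * T) := eA.mul_right T
    have o1 : Odd (A * T + r) := eAT.add_odd or
    exact inst_bad ha hb hA hlt hKD (o1.add_even ea) (o1.add_even eb) (o1.add_even eA)

end Pool.Agent.H88.BR
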