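import Pool.Agent.H88.BR.Dens
import Pool.Agent.H32.BM.Doubling
import Pool.Agent.H56.BN.Mul

/-!
# No term decides whether `B*(d) < 3/4`
-/

set_option autoImplicit false

namespace Pool.Agent.H88.BR

open Filter Pool.Agent.H78.BN

lemma four_terms (P : Finset (MvPolynomial (Tm 4) ℝ)) :
    ∃ d d' : Fin 4 → ℕ, (∀ i, 0 < d i) ∧ (∀ i, 0 < d' i) ∧
      Finset.univ.gcd d = 1 ∧ Finset.univ.gcd d' = 1 ∧
      (∀ p ∈ P, SignType.sign (MvPolynomial.eval (fun τ : Tm 4 => τ.eval fun i => (d i : ℝ)) p)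
        = SignType.sign (MvPolynomial.eval (fun τ : Tm 4 => τ.eval fun i => (d' i : ℝ)) p)) ∧
      Bstar d < 3 / 4 ∧ ¬ Bstar d' < 3 / 4 := by
  obtain ⟨U, h1, h2, h3, s, hs⟩ := sign_const P cell isOpen_cell nonempty_cell
  obtain ⟨A, a, b, r, g1, g2, g3, g4, g5, g6, g7⟩ := dense_good h2 h3 h1
  obtain ⟨A', a', b', r', k1, k2, k3, k4, k5, k6, k7, k8, k9⟩ := dense_bad h2 h3 h1
  have hP : ∀ᶠ k : ℕ in atTop, ∀ p ∈ P, SignType.sign (MvPolynomial.eval
      (fun τ : Tm 4 => τ.eval (dR (toR (pt A a b r)) ((k.factorial : ℕ) : ℝ))) p) = s p :=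
    (Filter.eventually_all_finset P).2 fun p hp => hs p hp _ g7
  have hP' : ∀ᶠ k : ℕ in atTop, ∀ p ∈ P, SignType.sign (MvPolynomial.eval
      (fun τ : Tm 4 => τ.eval (dR (toR (pt A' a' b' r')) ((k.factorial : ℕ) : ℝ))) p) = s p :=
    (Filter.eventually_all_finset P).2 fun p hp => hs p hp _ k9
  obtain ⟨k, ⟨d, c1, c2, c3, c4⟩, ⟨d', e1, e2, e3, e4⟩, hk, hk'⟩ :=
    ((good_ev g1 g2 g3 g4 g5 g6).and ((bad_ev k1 k2 k3 k4 k5 k6 k7 k8).and (hP.and hP'))).exists
  refine ⟨d, d', c1, e1, c2, e2, fun p hp => ?_, c4, e4⟩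
  rw [c3, e3, hk p hp, hk' p hp]

/-- **Main theorem.** For `n ≥ 4` the signs of finitely many real polynomials in terms do not decide
whether `B*(d) < 3/4`, even for instances with `gcd = 1`. The terms are built from the demands and
rational constants with the four operations, the floor and case distinctions according to a sign. -/
theorem no_terms (n : ℕ) (hn : 4 ≤ n) (P : Finset (MvPolynomial (Tm n) ℝ)) :
    ∃ d d' : Fin n → ℕ, (∀ i, 0 < d i) ∧ (∀ i, 0 < d' i) ∧
      Finset.univ.gcd d = 1 ∧ Finset.univ.gcd d' = 1 ∧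
      (∀ p ∈ P, SignType.sign (MvPolynomial.eval (fun τ : Tm n => τ.eval fun i => (d i : ℝ)) p)
        = SignType.sign (MvPolynomial.eval (fun τ : Tm n => τ.eval fun i => (d' i : ℝ)) p)) ∧
      Bstar d < 3 / 4 ∧ ¬ Bstar d' < 3 / 4 := by
  classical
  induction n, hn using Nat.le_induction with
  | base => exact four_terms P
  | succ n hn ih =>
    obtain ⟨σ, hσ⟩ := exists_sum n
    let f : Fin (n + 1) → Tm n := Fin.cons σ fun i => Tm.var i
    obtain ⟨d, d', c1, c2, c3, c4, c5, c6, c7⟩ :=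
      ih (P.image (MvPolynomial.rename (Tm.subst f)))
    have hpos : ∀ e : Fin n → ℕ, (∀ i, 0 < e i) → 0 < total e := by
      intro e he
      unfold total
      exact Finset.sum_pos (fun i _ => he i) ⟨⟨0, by omega⟩, Finset.mem_univ _⟩
    have hgcd : ∀ e : Fin n → ℕ, Finset.univ.gcd e = 1 →
        Finset.univ.gcd (Fin.cons (total e) e : Fin (n + 1) → ℕ) = 1 := by
      intro e he
      have h1 : Finset.univ.gcd (Fin.cons (total e) e : Fin (n + 1) → ℕ) ∣ Finset.univ.gcd e := by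
        rw [Finset.dvd_gcd_iff]
        intro i _
        have h2 := Finset.gcd_dvd (f := (Fin.cons (total e) e : Fin (n + 1) → ℕ))
          (Finset.mem_univ (Fin.succ i))
        rwa [Fin.cons_succ] at h2
      rw [he] at h1
      exact Nat.dvd_one.1 h1
    have hpos' : ∀ e : Fin n → ℕ, (∀ i, 0 < e i) →
        ∀ i, 0 < (Fin.cons (total e) e : Fin (n + 1) → ℕ) i := by
      intro e he i
      refine Fin.cases ?_ (fun j => ?_) i
      · rw [Fin.cons_zero]; exact hpos e he
      · rw [Fin.cons_succ]; exact he j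
    have heval : ∀ (e : Fin n → ℕ) (p : MvPolynomial (Tm (n + 1)) ℝ),
        MvPolynomial.eval (fun τ : Tm n => τ.eval fun i => (e i : ℝ))
          (MvPolynomial.rename (Tm.subst f) p) =
        MvPolynomial.eval (fun τ : Tm (n + 1) =>
          τ.eval fun i => ((Fin.cons (total e) e : Fin (n + 1) → ℕ) i : ℝ)) p := by
      intro e p
      rw [MvPolynomial.eval_rename]
      congr 2
      funext τ
      show (τ.subst f).eval _ = _
      rw [Tm.eval_subst]
      congr 1
      funext i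
      refine Fin.cases ?_ (fun j => ?_) i
      · show σ.eval _ = _
        rw [hσ, Fin.cons_zero]
        unfold total
        push_cast
        rfl
      · show (Tm.var j).eval _ = _
        rw [Fin.cons_succ]
        rfl
    refine ⟨Fin.cons (total d) d, Fin.cons (total d') d', hpos' d c1, hpos' d' c2, hgcd d c3,
      hgcd d' c4, fun p hp => ?_, ?_, ?_⟩
    · rw [← heval, ← heval]
      exact c5 _ (Finset.mem_image_of_mem _ hp)
    · exact (Pool.Agent.H32.BM.doubling d (hpos d c1)).2 c6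
    · exact fun h => c7 ((Pool.Agent.H32.BM.doubling d' (hpos d' c2)).1 h)

/-- No term is positive exactly at the instances with `B*(d) < 3/4`, even for `gcd = 1`. -/
theorem no_term (n : ℕ) (hn : 4 ≤ n) (τ : Tm n) :
    ∃ d : Fin n → ℕ, (∀ i, 0 < d i) ∧ Finset.univ.gcd d = 1 ∧
      ¬ (Bstar d < 3 / 4 ↔ 0 < τ.eval fun i => (d i : ℝ)) := by
  obtain ⟨d, d', c1, c2, c3, c4, c5, c6, c7⟩ := no_terms n hn {MvPolynomial.X τ}
  have h := c5 (MvPolynomial.X τ) (Finset.mem_singleton_self _)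
  rw [MvPolynomial.eval_X, MvPolynomial.eval_X] at h
  by_cases hp : 0 < τ.eval fun i => (d i : ℝ)
  · refine ⟨d', c2, c4, fun hiff => c7 (hiff.2 ?_)⟩
    rw [sign_pos hp] at h
    exact sign_eq_one_iff.1 h.symm
  · exact ⟨d, c1, c3, fun hiff => hp (hiff.1 c6)⟩

end Pool.Agent.H88.BR
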