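import Pool.Agent.H88.BR.Core

/-!
# The good and the bad instances of the family `inst`
-/

set_option autoImplicit false

namespace Pool.Agent.H88.BR

open Finset Pool.Agent.H78.BN Pool.Agent.H56.BN

section

variable {K D a b c : ℕ}

lemma inst_zero : inst K D a b c 0 = K * (D + a) + 1 := rfl
lemma inst_one : inst K D a b c 1 = K * (D + b) := rfl
lemma inst_two : inst K D a b c 2 = K * (D + c) := rfl
lemma inst_three : inst K D a b c 3 = K * (D - (a + b + c)) := rfl

lemma inst_pos (hK : 1 ≤ K) (h : a + b + c < D) : ∀ i, 0 < inst K D a b c i := by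
  intro i
  fin_cases i
  · exact Nat.succ_pos _
  · exact Nat.mul_pos hK (by omega)
  · exact Nat.mul_pos hK (by omega)
  · exact Nat.mul_pos hK (by omega)

lemma gcd_inst {K D a b c : ℕ} (hbc : b ≠ c) (hK : ((c:ℤ) - b) ∣ (K:ℤ)) :
    Finset.univ.gcd (inst K D a b c) = 1 := by
  by_contra hne
  obtain ⟨p, hp, hpd⟩ := Nat.exists_prime_and_dvd hne
  have d0 : p ∣ K * (D + a) + 1 := hpd.trans (Finset.gcd_dvd (f := inst K D a b c) (mem_univ 0))
  have d1 : p ∣ K * (D + b) := hpd.trans (Finset.gcd_dvd (f := inst K D a b c) (mem_univ 1))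
  have d2 : p ∣ K * (D + c) := hpd.trans (Finset.gcd_dvd (f := inst K D a b c) (mem_univ 2))
  have hpK : p ∣ K := by
    have h1 : (p:ℤ) ∣ (K:ℤ) * ((c:ℤ) - b) := by
      have e1 : (p:ℤ) ∣ ((K * (D + c) : ℕ) : ℤ) := Int.natCast_dvd_natCast.2 d2
      have e2 : (p:ℤ) ∣ ((K * (D + b) : ℕ) : ℤ) := Int.natCast_dvd_natCast.2 d1
      have e3 := dvd_sub e1 e2
      have e4 : ((K * (D + c) : ℕ) : ℤ) - ((K * (D + b) : ℕ) : ℤ) = (K:ℤ) * ((c:ℤ) - b) := by
        push_cast; ring
      rwa [e4] at e3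
    rcases (Nat.prime_iff_prime_int.1 hp).dvd_or_dvd h1 with h2 | h2
    · exact Int.natCast_dvd_natCast.1 h2
    · exact Int.natCast_dvd_natCast.1 (h2.trans hK)
  have h3 : p ∣ 1 := (Nat.dvd_add_right (hpK.mul_right (D + a))).1 d0
  exact hp.one_lt.ne' (Nat.dvd_one.1 h3)

lemma cast_three (h : a + b + c ≤ D) :
    ((inst K D a b c 3 : ℕ) : ℝ) = K * (D - (a + b + c)) := by
  rw [inst_three]
  push_cast [Nat.cast_sub h]
  ring

/-- **The good instances.** -/
theorem inst_good (hK : 1 ≤ K) (hK4 : 4 ∣ K) (ha : 1 ≤ a) (hb : 1 ≤ b) (hc : 1 ≤ c)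
    (hw : IsCoprime ((c:ℤ) - b) (3 * c + a)) (h4 : 4 ∣ a + D)
    (hbig : (|(c:ℤ) - b| + (3 * c + a) + (a + 3 * b)) * (a + b + c + 1) ≤ (D:ℤ)) :
    Bstar (inst K D a b c) < 3 / 4 := by
  have hD8 : 8 * (a + b + c + 1) ≤ D := by
    have s1 : 8 ≤ |(c:ℤ) - b| + (3 * c + a) + (a + 3 * b) := by
      have := abs_nonneg ((c:ℤ) - b)
      have e1 : (1:ℤ) ≤ a := by exact_mod_cast ha
      have e2 : (1:ℤ) ≤ b := by exact_mod_cast hb
      have e3 : (1:ℤ) ≤ c := by exact_mod_cast hc
      linarith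
    have s2 := mul_le_mul_of_nonneg_right s1 (by positivity : (0:ℤ) ≤ a + b + c + 1)
    have s3 : 8 * ((a:ℤ) + b + c + 1) ≤ D := le_trans s2 hbig
    exact_mod_cast s3
  have hlt : a + b + c < D := by omega
  have htot := total_inst (K := K) (le_of_lt hlt)
  have hpos := inst_pos (K := K) hK hlt
  have hDpos : 0 < total (inst K D a b c) := by rw [htot]; omega
  have hDR : ((total (inst K D a b c) : ℕ) : ℝ) = 4 * K * D + 1 := by rw [htot]; push_cast; ring
  have hDR0 : (0:ℝ) < 4 * K * D + 1 := by positivity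
  have r0 : rate (inst K D a b c) 0 = (K * (D + a) + 1 : ℝ) / (4 * K * D + 1) := by
    unfold rate; rw [hDR, inst_zero]; push_cast; ring
  have r1 : rate (inst K D a b c) 1 = (K * (D + b) : ℝ) / (4 * K * D + 1) := by
    unfold rate; rw [hDR, inst_one]; push_cast; ring
  have r2 : rate (inst K D a b c) 2 = (K * (D + c) : ℝ) / (4 * K * D + 1) := by
    unfold rate; rw [hDR, inst_two]; push_cast; ring
  have r3 : rate (inst K D a b c) 3 = (K * (D - (a + b + c)) : ℝ) / (4 * K * D + 1) := by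
    unfold rate; rw [hDR, cast_three (le_of_lt hlt)]
  -- real versions of the inequalities
  have hKR : (1:ℝ) ≤ K := by exact_mod_cast hK
  have haR : (1:ℝ) ≤ a := by exact_mod_cast ha
  have hbR : (1:ℝ) ≤ b := by exact_mod_cast hb
  have hcR : (1:ℝ) ≤ c := by exact_mod_cast hc
  have hD8R : 8 * ((a:ℝ) + b + c + 1) ≤ D := by exact_mod_cast hD8
  have m1 : (K:ℝ) * (8 * (a + b + c + 1)) ≤ K * D :=
    mul_le_mul_of_nonneg_left hD8R (by linarith)
  have m2 : (K:ℝ) * 1 ≤ K * a := mul_le_mul_of_nonneg_left haR (by linarith)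
  have m3 : (K:ℝ) * 1 ≤ K * b := mul_le_mul_of_nonneg_left hbR (by linarith)
  have m4 : (K:ℝ) * 1 ≤ K * c := mul_le_mul_of_nonneg_left hcR (by linarith)
  have hge : ∀ i, 1/6 ≤ rate (inst K D a b c) i := by
    intro i
    fin_cases i
    · show 1/6 ≤ rate (inst K D a b c) 0
      rw [r0, le_div_iff₀ hDR0]; linarith
    · show 1/6 ≤ rate (inst K D a b c) 1
      rw [r1, le_div_iff₀ hDR0]; linarith
    · show 1/6 ≤ rate (inst K D a b c) 2
      rw [r2, le_div_iff₀ hDR0]; linarith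
    · show 1/6 ≤ rate (inst K D a b c) 3
      rw [r3, le_div_iff₀ hDR0]; linarith
  have hlt2 : ∀ i, rate (inst K D a b c) i < 1/2 := by
    intro i
    fin_cases i
    · show rate (inst K D a b c) 0 < 1/2
      rw [r0, div_lt_iff₀ hDR0]; linarith
    · show rate (inst K D a b c) 1 < 1/2
      rw [r1, div_lt_iff₀ hDR0]; linarith
    · show rate (inst K D a b c) 2 < 1/2
      rw [r2, div_lt_iff₀ hDR0]; linarith
    · show rate (inst K D a b c) 3 < 1/2
      rw [r3, div_lt_iff₀ hDR0]; linarith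
  have h3lt : rate (inst K D a b c) 3 < 1/4 := by
    rw [r3, div_lt_iff₀ hDR0]; linarith
  have hbad : ¬ BadMod (inst K D a b c) := by
    rintro ⟨g, s, ⟨s', hs⟩, hgc⟩
    obtain ⟨t0, h0⟩ := hgc 0
    obtain ⟨t1, h1⟩ := hgc 1
    obtain ⟨q, hq⟩ := hK4
    rw [inst_zero] at h0
    rw [inst_one] at h1
    -- g is divisible by four
    have e1 : 4 ∣ g * (4 * t1 + s) := by
      rw [← h1, hq]
      exact ⟨q * (D + b), by ring⟩
    have e2 : Nat.Coprime 4 (4 * t1 + s) := by
      rw [hs]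
      have : Nat.Coprime (2 ^ 2) (4 * t1 + (2 * s' + 1)) := by
        apply Nat.Coprime.pow_left
        rw [Nat.coprime_two_left]
        exact ⟨2 * t1 + s', by ring⟩
      exact this
    have e3 : 4 ∣ g := e2.dvd_of_dvd_mul_right e1
    have e4 : 4 ∣ K * (D + a) + 1 := by rw [h0]; exact e3.mul_right _
    have e5 : 4 ∣ K * (D + a) := Dvd.dvd.mul_right (Dvd.intro q hq.symm) _
    have e6 : 4 ∣ 1 := (Nat.dvd_add_right e5).1 e4
    omega
  apply Bstar_lt_of_hall _ hDpos
  intro x y hxy _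
  rcases Nat.lt_or_ge (y - x) 3 with hL | hL
  · have hcases : y = x + 1 ∨ y = x + 2 := by omega
    rcases hcases with e | e
    · -- length one
      have hz : ∀ i, max 0 (Fl (rate (inst K D a b c) i) y - Cl (rate (inst K D a b c) i) x)
          = 0 := by
        intro i
        apply max_eq_left
        apply win_le
        rw [e]
        push_cast
        have := hlt2 i
        linarith
      rw [Finset.sum_congr rfl (fun i _ => hz i)]
      rw [e]; simp
    · -- length two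
      have hz3 : max 0 (Fl (rate (inst K D a b c) 3) y - Cl (rate (inst K D a b c) 3) x) = 0 := by
        apply max_eq_left
        apply win_le
        rw [e]
        push_cast
        linarith
      have hz1 : ∀ i, max 0 (Fl (rate (inst K D a b c) i) y - Cl (rate (inst K D a b c) i) x)
          ≤ 1 := by
        intro i
        apply max_le zero_le_one
        apply win_le
        rw [e]
        push_cast
        have := hlt2 i
        linarith
      rw [Fin.sum_univ_four, hz3]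
      by_contra hcon
      push Not at hcon
      have q0 := hz1 0
      have q1 := hz1 1
      have q2 := hz1 2
      rw [e] at q0 q1 q2 hcon
      push_cast at q0 q1 q2 hcon
      have w0 : 1 ≤ Fl (rate (inst K D a b c) 0) (x + 2) - Cl (rate (inst K D a b c) 0) x := by
        omega
      have w1 : 1 ≤ Fl (rate (inst K D a b c) 1) (x + 2) - Cl (rate (inst K D a b c) 1) x := by
        omega
      have w2 : 1 ≤ Fl (rate (inst K D a b c) 2) (x + 2) - Cl (rate (inst K D a b c) 2) x := by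
        omega
      have hTZ : (0:ℤ) < 4 * K * D + 1 := by positivity
      have c0 : rate (inst K D a b c) 0 = (((K * (D + a) + 1 : ℤ) : ℝ)) / ((4 * K * D + 1 : ℤ) : ℝ) := by
        rw [r0]; push_cast; ring
      have c1 : rate (inst K D a b c) 1 = (((K * (D + b) : ℤ) : ℝ)) / ((4 * K * D + 1 : ℤ) : ℝ) := by
        rw [r1]; push_cast; ring
      have c2 : rate (inst K D a b c) 2 = (((K * (D + c) : ℤ) : ℝ)) / ((4 * K * D + 1 : ℤ) : ℝ) := by
        rw [r2]; push_cast; ring
      rw [c0] at w0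
      rw [c1] at w1
      rw [c2] at w2
      obtain ⟨N1, u1, l1⟩ := win_two hTZ w0
      obtain ⟨N2, u2, l2⟩ := win_two hTZ w1
      obtain ⟨N3, u3, l3⟩ := win_two hTZ w2
      exact no_win (K := K) (D := D) (a1 := a) (a2 := b) (a3 := c) (t := x + 1)
        (by exact_mod_cast hK) (by exact_mod_cast ha) (by exact_mod_cast hb)
        (by exact_mod_cast hc) hw (by exact_mod_cast h4) hbig u1 l1 u2 l2 u3 l3
  · -- length at least three
    have hnn : ∀ i, 0 ≤ Fl (rate (inst K D a b c) i) y - Cl (rate (inst K D a b c) i) x := by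
      intro i
      apply win_nonneg
      have h1 : (3:ℝ) ≤ ((y:ℤ):ℝ) - ((x:ℤ):ℝ) := by
        have : (x:ℝ) + 3 ≤ y := by exact_mod_cast (by omega : x + 3 ≤ y)
        push_cast
        linarith
      have h2 := hge i
      have h3 := mul_le_mul h1 h2 (by norm_num) (by linarith)
      linarith
    have h2 : ∑ i, max 0 (Fl (rate (inst K D a b c) i) y - Cl (rate (inst K D a b c) i) x)
        = ∑ i, Fl (rate (inst K D a b c) i) y + ∑ i, Fl (rate (inst K D a b c) i) (-(x:ℤ)) := by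
      rw [← Finset.sum_add_distrib]
      apply Finset.sum_congr rfl
      intro i _
      rw [max_eq_right (hnn i), Cl_eq_neg_Fl]; ring
    rw [h2]
    have h3 := prefix_four (inst K D a b c) hpos hbad y
    have h4 := prefix_four (inst K D a b c) hpos hbad (-(x:ℤ))
    omega

/-- **The bad instances.** -/
theorem inst_bad (ha : 1 ≤ a) (hb : 1 ≤ b) (hc : 1 ≤ c) (hlt : a + b + c < D)
    (hKD : 2 * D ≤ K) (oa : Odd (D + a)) (ob : Odd (D + b)) (oc : Odd (D + c)) :
    ¬ Bstar (inst K D a b c) < 3 / 4 := by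
  have htot := total_inst (K := K) (le_of_lt hlt)
  have hDpos : 0 < total (inst K D a b c) := by rw [htot]; omega
  have hDR : ((total (inst K D a b c) : ℕ) : ℝ) = 4 * K * D + 1 := by rw [htot]; push_cast; ring
  have hDR0 : (0:ℝ) < 4 * K * D + 1 := by positivity
  intro hB
  have h3 := hall_of_Bstar_lt (inst K D a b c) hDpos hB (2 * D - 1) (2 * D + 1) (by omega)
  have hD1 : 1 ≤ 2 * D := by omega
  have letter : ∀ (x : ℝ) (s : ℤ),
      4 * s * (4 * K * D + 1) ≥ 4 * (2 * D - 1) * x - (4 * K * D + 1) →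
      4 * (s + 1) * (4 * K * D + 1) ≤ 4 * (2 * D + 1) * x + (4 * K * D + 1) →
      1 ≤ Fl (x / (4 * K * D + 1)) ((2 * D + 1 : ℕ) : ℤ)
        - Cl (x / (4 * K * D + 1)) ((2 * D - 1 : ℕ) : ℤ) := by
    intro x s e1 e2
    have h4 : s + 1 ≤ Fl (x / (4 * K * D + 1)) ((2 * D + 1 : ℕ) : ℤ) := by
      unfold Fl
      rw [Int.le_floor]
      push_cast
      rw [← sub_le_iff_le_add, mul_div_assoc', le_div_iff₀ hDR0]
      linarith
    have h5 : Cl (x / (4 * K * D + 1)) ((2 * D - 1 : ℕ) : ℤ) ≤ s := by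
      unfold Cl
      rw [Int.ceil_le]
      push_cast [Nat.cast_sub hD1]
      rw [sub_le_iff_le_add, mul_div_assoc', div_le_iff₀ hDR0]
      linarith
    omega
  have r0 : rate (inst K D a b c) 0 = (K * (D + a) + 1 : ℝ) / (4 * K * D + 1) := by
    unfold rate; rw [hDR, inst_zero]; push_cast; ring
  have r1 : rate (inst K D a b c) 1 = (K * (D + b) : ℝ) / (4 * K * D + 1) := by
    unfold rate; rw [hDR, inst_one]; push_cast; ring
  have r2 : rate (inst K D a b c) 2 = (K * (D + c) : ℝ) / (4 * K * D + 1) := by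
    unfold rate; rw [hDR, inst_two]; push_cast; ring
  have haR : (1:ℝ) ≤ a := by exact_mod_cast ha
  have hbR : (1:ℝ) ≤ b := by exact_mod_cast hb
  have hcR : (1:ℝ) ≤ c := by exact_mod_cast hc
  have hKR : 2 * (D:ℝ) ≤ K := by exact_mod_cast hKD
  have hltR : (a:ℝ) + b + c < D := by exact_mod_cast hlt
  have m2 : (K:ℝ) * 1 ≤ K * a := mul_le_mul_of_nonneg_left haR (by linarith)
  have m3 : (K:ℝ) * 1 ≤ K * b := mul_le_mul_of_nonneg_left hbR (by linarith)
  have m4 : (K:ℝ) * 1 ≤ K * c := mul_le_mul_of_nonneg_left hcR (by linarith)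
  -- the numbers s with 2(D + a_i) = 4 s + 2
  obtain ⟨sa, hsa⟩ := oa
  obtain ⟨sb, hsb⟩ := ob
  obtain ⟨sc, hsc⟩ := oc
  have hsaR : (D:ℝ) + a = 2 * sa + 1 := by exact_mod_cast hsa
  have hsbR : (D:ℝ) + b = 2 * sb + 1 := by exact_mod_cast hsb
  have hscR : (D:ℝ) + c = 2 * sc + 1 := by exact_mod_cast hsc
  have esa : (sa:ℝ) = ((D:ℝ) + a - 1) / 2 := by linarith
  have esb : (sb:ℝ) = ((D:ℝ) + b - 1) / 2 := by linarith
  have esc : (sc:ℝ) = ((D:ℝ) + c - 1) / 2 := by linarith
  have k0 : (1:ℤ) ≤ max 0 (Fl (rate (inst K D a b c) 0) ((2 * D + 1 : ℕ) : ℤ)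
      - Cl (rate (inst K D a b c) 0) ((2 * D - 1 : ℕ) : ℤ)) := by
    rw [r0]
    refine le_trans (letter _ (sa : ℤ) ?_ ?_) (le_max_right _ _)
    · push_cast; rw [esa]; linarith
    · push_cast; rw [esa]; linarith
  have k1 : (1:ℤ) ≤ max 0 (Fl (rate (inst K D a b c) 1) ((2 * D + 1 : ℕ) : ℤ)
      - Cl (rate (inst K D a b c) 1) ((2 * D - 1 : ℕ) : ℤ)) := by
    rw [r1]
    refine le_trans (letter _ (sb : ℤ) ?_ ?_) (le_max_right _ _)
    · push_cast; rw [esb]; linarith
    · push_cast; rw [esb]; linarith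
  have k2 : (1:ℤ) ≤ max 0 (Fl (rate (inst K D a b c) 2) ((2 * D + 1 : ℕ) : ℤ)
      - Cl (rate (inst K D a b c) 2) ((2 * D - 1 : ℕ) : ℤ)) := by
    rw [r2]
    refine le_trans (letter _ (sc : ℤ) ?_ ?_) (le_max_right _ _)
    · push_cast; rw [esc]; linarith
    · push_cast; rw [esc]; linarith
  have k3 : (0:ℤ) ≤ max 0 (Fl (rate (inst K D a b c) 3) ((2 * D + 1 : ℕ) : ℤ)
      - Cl (rate (inst K D a b c) 3) ((2 * D - 1 : ℕ) : ℤ)) := le_max_left _ _
  rw [Fin.sum_univ_four] at h3
  push_cast [Nat.cast_sub hD1] at h3 k0 k1 k2 k3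
  omega

end

end Pool.Agent.H88.BR
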