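import Mathlib

/-!
# Polynomials whose coefficients are continuous functions of a parameter

`nice b U` : the functions on `ℝ³` which are continuous on `U` and, if `b`, rational at the rational points
of `U`. `Rep b U g` (file `Rep`): for every rational `v ∈ U` the values `g v (k!)`, `k` large, are the values
of a quotient of two polynomials in `k!` whose coefficients are nice functions of `v`.
-/

set_option autoImplicit false

namespace Pool.Agent.H88.BR

open Polynomial Filter

/-- the space of parameters -/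
abbrev V : Type := Fin 3 → ℝ

/-- a rational point -/
def toR (q : Fin 3 → ℚ) : V := fun i => (q i : ℝ)

/-- the functions which are continuous on `U` and, if `b`, rational at the rational points of `U` -/
def nice (b : Prop) (U : Set V) : Subring (V → ℝ) where
  carrier := {f | ContinuousOn f U ∧ (b → ∀ q : Fin 3 → ℚ, toR q ∈ U → ∃ r : ℚ, f (toR q) = r)}
  mul_mem' := by
    rintro f g ⟨hf, hf'⟩ ⟨hg, hg'⟩
    refine ⟨hf.mul hg, fun hb q hq => ?_⟩
    obtain ⟨r, hr⟩ := hf' hb q hq
    obtain ⟨s, hs⟩ := hg' hb q hq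
    exact ⟨r * s, by rw [Pi.mul_apply, hr, hs]; push_cast; rfl⟩
  one_mem' := ⟨continuousOn_const, fun _ q _ => ⟨1, by simp⟩⟩
  add_mem' := by
    rintro f g ⟨hf, hf'⟩ ⟨hg, hg'⟩
    refine ⟨hf.add hg, fun hb q hq => ?_⟩
    obtain ⟨r, hr⟩ := hf' hb q hq
    obtain ⟨s, hs⟩ := hg' hb q hq
    exact ⟨r + s, by rw [Pi.add_apply, hr, hs]; push_cast; rfl⟩
  zero_mem' := ⟨continuousOn_const, fun _ q _ => ⟨0, by simp⟩⟩
  neg_mem' := by
    rintro f ⟨hf, hf'⟩
    refine ⟨hf.neg, fun hb q hq => ?_⟩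
    obtain ⟨r, hr⟩ := hf' hb q hq
    exact ⟨-r, by rw [Pi.neg_apply, hr]; push_cast; rfl⟩

variable {b : Prop}

lemma nice_mono {U U' : Set V} (h : U' ⊆ U) : nice b U ≤ nice b U' := by
  rintro f ⟨hf, hf'⟩
  exact ⟨hf.mono h, fun hb q hq => hf' hb q (h hq)⟩

/-- the value of a nice function -/
def ev {U : Set V} (v : V) : nice b U →+* ℝ := (Pi.evalRingHom (fun _ => ℝ) v).comp (nice b U).subtype

lemma ev_apply {U : Set V} (v : V) (f : nice b U) : ev v f = f.1 v := rfl

/-- restriction to a smaller set -/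
def res {U U' : Set V} (h : U' ⊆ U) : nice b U →+* nice b U' := Subring.inclusion (nice_mono h)

lemma ev_res {U U' : Set V} (h : U' ⊆ U) (v : V) : (ev v).comp (res h) = (ev v : nice b U →+* ℝ) := rfl

lemma map_res {U U' : Set V} (h : U' ⊆ U) (v : V) (P : (nice b U)[X]) :
    (P.map (res h)).map (ev v) = P.map (ev v) := by
  rw [Polynomial.map_map, ev_res]

/-- a rational constant -/
noncomputable def cst (b : Prop) (U : Set V) (r : ℚ) : nice b U :=
  ⟨fun _ => (r : ℝ), continuousOn_const, fun _ _ _ => ⟨r, rfl⟩⟩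

/-- a real constant -/
noncomputable def rcst (U : Set V) (r : ℝ) : nice False U :=
  ⟨fun _ => r, continuousOn_const, fun h => h.elim⟩

/-- the coordinates -/
def crd (b : Prop) (U : Set V) (i : Fin 3) : nice b U :=
  ⟨fun v => v i, (continuous_apply i).continuousOn, fun _ q _ => ⟨q i, rfl⟩⟩

/-- nice functions without the rationality -/
def fgt (U : Set V) : nice True U →+* nice False U :=
  Subring.inclusion (by
    rintro f ⟨hf, _⟩
    exact ⟨hf, fun h => h.elim⟩)

lemma map_fgt {U : Set V} (v : V) (P : (nice True U)[X]) :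
    (P.map (fgt U)).map (ev v) = P.map (ev v) := by
  rw [Polynomial.map_map]
  rfl

/-! ### Real polynomials -/

lemma fact_tendsto : Tendsto (fun k : ℕ => ((k.factorial : ℕ) : ℝ)) atTop atTop := by
  apply tendsto_natCast_atTop_atTop.comp
  exact tendsto_atTop_mono Nat.self_le_factorial tendsto_id

lemma ev_pos {p : ℝ[X]} (hp : 0 < p.leadingCoeff) : ∀ᶠ k : ℕ in atTop, 0 < p.eval ((k.factorial : ℕ) : ℝ) := by
  rcases Nat.eq_zero_or_pos p.natDegree with h0 | h0
  · have h1 := Polynomial.eq_C_of_natDegree_eq_zero h0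
    refine Filter.Eventually.of_forall fun k => ?_
    rw [h1, Polynomial.eval_C]
    rw [h1, Polynomial.leadingCoeff_C] at hp
    exact hp
  · have h1 := Polynomial.tendsto_atTop_of_leadingCoeff_nonneg p
      (Polynomial.natDegree_pos_iff_degree_pos.1 h0) hp.le
    exact (h1.comp fact_tendsto).eventually_gt_atTop 0

lemma ev_neg {p : ℝ[X]} (hp : p.leadingCoeff < 0) : ∀ᶠ k : ℕ in atTop, p.eval ((k.factorial : ℕ) : ℝ) < 0 := by
  have h1 : 0 < (-p).leadingCoeff := by rw [Polynomial.leadingCoeff_neg]; linarith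
  filter_upwards [ev_pos h1] with k hk
  rw [Polynomial.eval_neg] at hk
  linarith

lemma ev_ne {p : ℝ[X]} (hp : p ≠ 0) : ∀ᶠ k : ℕ in atTop, p.eval ((k.factorial : ℕ) : ℝ) ≠ 0 := by
  have h1 : p.leadingCoeff ≠ 0 := Polynomial.leadingCoeff_ne_zero.2 hp
  rcases lt_or_gt_of_ne h1 with h | h
  · filter_upwards [ev_neg h] with k hk using hk.ne
  · filter_upwards [ev_pos h] with k hk using hk.ne'

lemma int_val (p : ℚ[X]) : ∀ᶠ k : ℕ in atTop, ∃ z : ℤ,
    ((k.factorial : ℕ) : ℚ) * p.eval ((k.factorial : ℕ) : ℚ) = z := by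
  induction p using Polynomial.induction_on' with
  | add p q hp hq =>
    filter_upwards [hp, hq] with k ⟨z, hz⟩ ⟨w, hw⟩
    refine ⟨z + w, ?_⟩
    rw [Polynomial.eval_add, mul_add, hz, hw]; push_cast; rfl
  | monomial j a =>
    filter_upwards [Filter.eventually_ge_atTop a.den] with k hk
    obtain ⟨m, hm⟩ : a.den ∣ k.factorial := Nat.dvd_factorial a.den_pos hk
    refine ⟨m * a.num * (k.factorial : ℤ) ^ j, ?_⟩
    rw [Polynomial.eval_monomial]
    have h1 : (a.den : ℚ) * a = a.num := by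
      rw [mul_comm]; exact Rat.mul_den_eq_num a
    have h2 : ((k.factorial : ℕ) : ℚ) = a.den * m := by rw [hm]; push_cast; rfl
    calc ((k.factorial : ℕ) : ℚ) * (a * ((k.factorial : ℕ) : ℚ) ^ j)
        = (m * (a.den * a)) * ((k.factorial : ℕ) : ℚ) ^ j := by
          nth_rewrite 1 [h2]; ring
      _ = _ := by rw [h1]; push_cast; ring

/-- a polynomial with rational coefficients takes at `k!` values congruent to the constant coefficient -/
lemma int_val_real {p : ℝ[X]} (hp : ∀ j, ∃ r : ℚ, p.coeff j = r) : ∀ᶠ k : ℕ in atTop, ∃ z : ℤ,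
    p.eval ((k.factorial : ℕ) : ℝ) = p.coeff 0 + z := by
  have h1 : p ∈ Polynomial.lifts (algebraMap ℚ ℝ) := by
    rw [Polynomial.lifts_iff_coeff_lifts]
    intro j
    obtain ⟨r, hr⟩ := hp j
    exact ⟨r, by rw [hr]; rfl⟩
  obtain ⟨p', hp'⟩ := (Polynomial.mem_lifts _).1 h1
  filter_upwards [int_val p'.divX] with k ⟨z, hz⟩
  refine ⟨z, ?_⟩
  have h2 : p'.eval ((k.factorial : ℕ) : ℚ) = p'.coeff 0 + z := by
    conv_lhs => rw [← Polynomial.divX_mul_X_add p']
    rw [Polynomial.eval_add, Polynomial.eval_mul, Polynomial.eval_X, Polynomial.eval_C, ← hz]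
    ring
  rw [← hp', Polynomial.coeff_map]
  have h3 : (p'.map (algebraMap ℚ ℝ)).eval ((k.factorial : ℕ) : ℝ)
      = ((p'.eval ((k.factorial : ℕ) : ℚ) : ℚ) : ℝ) := by
    have := Polynomial.eval_map_apply (p := p') (f := algebraMap ℚ ℝ) (((k.factorial : ℕ) : ℚ))
    simpa using this
  rw [h3, h2]
  push_cast
  rfl

end Pool.Agent.H88.BR
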