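import Pool.Agent.H88.BR.Nice

/-!
# Representable functions are closed under the operations of the terms (after shrinking the set)
-/

set_option autoImplicit false

namespace Pool.Agent.H88.BR

open Polynomial Filter

variable {b : Prop}

/-- the value of a polynomial with nice coefficients at a point and at a number -/
noncomputable def pv {U : Set V} (P : (nice b U)[X]) (v : V) (T : ℝ) : ℝ := (P.map (ev v)).eval T

lemma pv_add {U : Set V} (P Q : (nice b U)[X]) (v : V) (T : ℝ) : pv (P + Q) v T = pv P v T + pv Q v T := by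
  unfold pv; rw [Polynomial.map_add, Polynomial.eval_add]

lemma pv_mul {U : Set V} (P Q : (nice b U)[X]) (v : V) (T : ℝ) : pv (P * Q) v T = pv P v T * pv Q v T := by
  unfold pv; rw [Polynomial.map_mul, Polynomial.eval_mul]

lemma pv_C {U : Set V} (f : nice b U) (v : V) (T : ℝ) : pv (C f) v T = f.1 v := by
  unfold pv; rw [Polynomial.map_C, Polynomial.eval_C, ev_apply]

lemma pv_X {U : Set V} (v : V) (T : ℝ) : pv (X : (nice b U)[X]) v T = T := by
  unfold pv; rw [Polynomial.map_X, Polynomial.eval_X]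

lemma pv_pow {U : Set V} (P : (nice b U)[X]) (n : ℕ) (v : V) (T : ℝ) : pv (P ^ n) v T = pv P v T ^ n := by
  unfold pv; rw [Polynomial.map_pow, Polynomial.eval_pow]

lemma pv_one {U : Set V} (v : V) (T : ℝ) : pv (1 : (nice b U)[X]) v T = 1 := by
  unfold pv; rw [Polynomial.map_one, Polynomial.eval_one]

lemma pv_zero {U : Set V} (v : V) (T : ℝ) : pv (0 : (nice b U)[X]) v T = 0 := by
  unfold pv; rw [Polynomial.map_zero, Polynomial.eval_zero]

lemma pv_sub {U : Set V} (P Q : (nice b U)[X]) (v : V) (T : ℝ) : pv (P - Q) v T = pv P v T - pv Q v T := by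
  unfold pv; rw [Polynomial.map_sub, Polynomial.eval_sub]

lemma pv_res {U U' : Set V} (h : U' ⊆ U) (P : (nice b U)[X]) (v : V) (T : ℝ) :
    pv (P.map (res h)) v T = pv P v T := by
  unfold pv; rw [map_res]

/-- representable functions -/
def Rep (b : Prop) (U : Set V) (g : V → ℝ → ℝ) : Prop :=
  ∃ P Q : (nice b U)[X], (∀ v ∈ U, Q.map (ev v) ≠ 0) ∧ ∀ q : Fin 3 → ℚ, toR q ∈ U →
    ∀ᶠ k : ℕ in atTop, g (toR q) ((k.factorial : ℕ) : ℝ) =
      pv P (toR q) ((k.factorial : ℕ) : ℝ) / pv Q (toR q) ((k.factorial : ℕ) : ℝ)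

lemma Rep.mono {U U' : Set V} (h : U' ⊆ U) {g : V → ℝ → ℝ} (hg : Rep b U g) : Rep b U' g := by
  obtain ⟨P, Q, hQ, hE⟩ := hg
  refine ⟨P.map (res h), Q.map (res h), fun v hv => ?_, fun q hq => ?_⟩
  · rw [map_res]; exact hQ v (h hv)
  · filter_upwards [hE q (h hq)] with k hk
    rw [hk, pv_res, pv_res]

lemma Rep.congr {U : Set V} {g g' : V → ℝ → ℝ} (hg : Rep b U g)
    (h : ∀ q : Fin 3 → ℚ, toR q ∈ U → ∀ᶠ k : ℕ in atTop,
      g' (toR q) ((k.factorial : ℕ) : ℝ) = g (toR q) ((k.factorial : ℕ) : ℝ)) : Rep b U g' := by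
  obtain ⟨P, Q, hQ, hE⟩ := hg
  refine ⟨P, Q, hQ, fun q hq => ?_⟩
  filter_upwards [hE q hq, h q hq] with k hk hk'
  rw [hk', hk]

/-- polynomials are representable -/
lemma rep_poly {U : Set V} (P : (nice b U)[X]) : Rep b U (fun v T => pv P v T) := by
  refine ⟨P, 1, fun v _ => ?_, fun q _ => Filter.Eventually.of_forall fun k => ?_⟩
  · rw [Polynomial.map_one]; exact one_ne_zero
  · rw [pv_one, div_one]

lemma rep_const {U : Set V} (r : ℚ) : Rep b U (fun _ _ => (r : ℝ)) := by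
  refine (rep_poly (C (cst b U r))).congr fun q _ => Filter.Eventually.of_forall fun k => ?_
  show (r:ℝ) = pv (C (cst b U r)) _ _
  rw [pv_C]
  rfl

lemma rep_rconst {U : Set V} (r : ℝ) : Rep False U (fun _ _ => r) := by
  refine (rep_poly (C (rcst U r))).congr fun q _ => Filter.Eventually.of_forall fun k => ?_
  show r = pv (C (rcst U r)) _ _
  rw [pv_C]
  rfl

lemma Rep.fgt {U : Set V} {g : V → ℝ → ℝ} (hg : Rep True U g) : Rep False U g := by
  obtain ⟨P, Q, hQ, hE⟩ := hg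
  refine ⟨P.map (BR.fgt U), Q.map (BR.fgt U), fun v hv => ?_, fun q hq => ?_⟩
  · rw [map_fgt]; exact hQ v hv
  · filter_upwards [hE q hq] with k hk
    rw [hk]
    unfold pv
    rw [map_fgt, map_fgt]

/-- eventually the denominator does not vanish -/
lemma den_ne {U : Set V} {Q : (nice b U)[X]} (hQ : ∀ v ∈ U, Q.map (ev v) ≠ 0) {q : Fin 3 → ℚ}
    (hq : toR q ∈ U) : ∀ᶠ k : ℕ in atTop, pv Q (toR q) ((k.factorial : ℕ) : ℝ) ≠ 0 :=
  ev_ne (hQ _ hq)

lemma Rep.add {U : Set V} {g g' : V → ℝ → ℝ} (hg : Rep b U g) (hg' : Rep b U g') :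
    Rep b U (fun v T => g v T + g' v T) := by
  obtain ⟨P, Q, hQ, hE⟩ := hg
  obtain ⟨P', Q', hQ', hE'⟩ := hg'
  refine ⟨P * Q' + P' * Q, Q * Q', fun v hv => ?_, fun q hq => ?_⟩
  · rw [Polynomial.map_mul]
    exact mul_ne_zero (hQ v hv) (hQ' v hv)
  · filter_upwards [hE q hq, hE' q hq, den_ne hQ hq, den_ne hQ' hq] with k h1 h2 h3 h4
    rw [h1, h2, pv_add, pv_mul, pv_mul, pv_mul]
    field_simp

lemma Rep.mul {U : Set V} {g g' : V → ℝ → ℝ} (hg : Rep b U g) (hg' : Rep b U g') :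
    Rep b U (fun v T => g v T * g' v T) := by
  obtain ⟨P, Q, hQ, hE⟩ := hg
  obtain ⟨P', Q', hQ', hE'⟩ := hg'
  refine ⟨P * P', Q * Q', fun v hv => ?_, fun q hq => ?_⟩
  · rw [Polynomial.map_mul]
    exact mul_ne_zero (hQ v hv) (hQ' v hv)
  · filter_upwards [hE q hq, hE' q hq] with k h1 h2
    rw [h1, h2, pv_mul, pv_mul, div_mul_div_comm]

/-- **Normalisation.** After shrinking the set a polynomial is zero, or it has constant degree and a
leading coefficient of constant sign. -/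
lemma normalise {U : Set V} (hU : IsOpen U) (hne : U.Nonempty) (P : (nice b U)[X]) :
    ∃ U', U' ⊆ U ∧ IsOpen U' ∧ U'.Nonempty ∧
      ((∀ v ∈ U', P.map (ev v) = 0) ∨
       (∃ m, ∀ v ∈ U', (P.map (ev v)).natDegree = m ∧ 0 < (P.coeff m).1 v) ∨
       (∃ m, ∀ v ∈ U', (P.map (ev v)).natDegree = m ∧ (P.coeff m).1 v < 0)) := by
  induction hn : P.natDegree using Nat.strong_induction_on generalizing P with
  | _ n ih =>
    by_cases hz : ∃ v ∈ U, P.leadingCoeff.1 v ≠ 0
    · obtain ⟨v₀, hv₀, hne₀⟩ := hz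
      have hcont : ContinuousOn P.leadingCoeff.1 U := P.leadingCoeff.2.1
      rcases lt_or_gt_of_ne hne₀ with h | h
      · refine ⟨U ∩ P.leadingCoeff.1 ⁻¹' (Set.Iio 0), Set.inter_subset_left,
          hcont.isOpen_inter_preimage hU isOpen_Iio, ⟨v₀, hv₀, h⟩, Or.inr (Or.inr ⟨P.natDegree, ?_⟩)⟩
        rintro v ⟨hv, hv'⟩
        have h2 : P.leadingCoeff.1 v < 0 := hv'
        refine ⟨?_, h2⟩
        apply Polynomial.natDegree_map_of_leadingCoeff_ne_zero
        rw [ev_apply]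
        exact h2.ne
      · refine ⟨U ∩ P.leadingCoeff.1 ⁻¹' (Set.Ioi 0), Set.inter_subset_left,
          hcont.isOpen_inter_preimage hU isOpen_Ioi, ⟨v₀, hv₀, h⟩, Or.inr (Or.inl ⟨P.natDegree, ?_⟩)⟩
        rintro v ⟨hv, hv'⟩
        have h2 : 0 < P.leadingCoeff.1 v := hv'
        refine ⟨?_, h2⟩
        apply Polynomial.natDegree_map_of_leadingCoeff_ne_zero
        rw [ev_apply]
        exact h2.ne'
    · push Not at hz
      -- the leading coefficient vanishes on `U`
      have hmap : ∀ v ∈ U, P.map (ev v) = P.eraseLead.map (ev v) := by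
        intro v hv
        conv_lhs => rw [← Polynomial.eraseLead_add_C_mul_X_pow P]
        rw [Polynomial.map_add, Polynomial.map_mul, Polynomial.map_C, ev_apply, hz v hv,
          Polynomial.C_0, zero_mul, add_zero]
      rcases Nat.eq_zero_or_pos P.natDegree with h0 | h0
      · refine ⟨U, Set.Subset.refl _, hU, hne, Or.inl fun v hv => ?_⟩
        have h1 := Polynomial.eq_C_of_natDegree_eq_zero h0
        have h2 : P.coeff 0 = P.leadingCoeff := by
          rw [Polynomial.leadingCoeff, h0]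
        rw [h1, Polynomial.map_C, h2, ev_apply, hz v hv, Polynomial.C_0]
      · have hlt : P.eraseLead.natDegree < n := by
          have := Polynomial.eraseLead_natDegree_le P
          omega
        obtain ⟨U', h1, h2, h3, h4⟩ := ih _ hlt P.eraseLead rfl
        refine ⟨U', h1, h2, h3, ?_⟩
        have hco : ∀ m v, v ∈ U' → (P.coeff m).1 v = (P.eraseLead.coeff m).1 v := by
          intro m v hv
          have e := congrArg (fun p : ℝ[X] => p.coeff m) (hmap v (h1 hv))
          simp only [Polynomial.coeff_map, ev_apply] at e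
          exact e
        rcases h4 with h4 | ⟨m, h4⟩ | ⟨m, h4⟩
        · left
          intro v hv
          rw [hmap v (h1 hv)]
          exact h4 v hv
        · right; left
          refine ⟨m, fun v hv => ?_⟩
          rw [hmap v (h1 hv), hco m v hv]
          exact h4 v hv
        · right; right
          refine ⟨m, fun v hv => ?_⟩
          rw [hmap v (h1 hv), hco m v hv]
          exact h4 v hv

/-- after shrinking, a polynomial has eventually a constant sign -/
lemma sign_poly {U : Set V} (hU : IsOpen U) (hne : U.Nonempty) (P : (nice b U)[X]) :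
    ∃ U', U' ⊆ U ∧ IsOpen U' ∧ U'.Nonempty ∧
      ((∀ v ∈ U', ∀ T, pv P v T = 0) ∨
       (∀ v ∈ U', ∀ᶠ k : ℕ in atTop, 0 < pv P v ((k.factorial : ℕ) : ℝ)) ∨
       (∀ v ∈ U', ∀ᶠ k : ℕ in atTop, pv P v ((k.factorial : ℕ) : ℝ) < 0)) := by
  obtain ⟨U', h1, h2, h3, h4⟩ := normalise hU hne P
  refine ⟨U', h1, h2, h3, ?_⟩
  rcases h4 with h4 | ⟨m, h4⟩ | ⟨m, h4⟩
  · left
    intro v hv T
    unfold pv
    rw [h4 v hv, Polynomial.eval_zero]
  · right; left
    intro v hv
    obtain ⟨e1, e2⟩ := h4 v hv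
    apply ev_pos
    rw [Polynomial.leadingCoeff, e1, Polynomial.coeff_map]
    exact e2
  · right; right
    intro v hv
    obtain ⟨e1, e2⟩ := h4 v hv
    apply ev_neg
    rw [Polynomial.leadingCoeff, e1, Polynomial.coeff_map]
    exact e2

lemma Rep.inv {U : Set V} (hU : IsOpen U) (hne : U.Nonempty) {g : V → ℝ → ℝ} (hg : Rep b U g) :
    ∃ U', U' ⊆ U ∧ IsOpen U' ∧ U'.Nonempty ∧ Rep b U' (fun v T => (g v T)⁻¹) := by
  obtain ⟨P, Q, hQ, hE⟩ := hg
  obtain ⟨U', h1, h2, h3, h4⟩ := normalise hU hne P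
  refine ⟨U', h1, h2, h3, ?_⟩
  have main : (∀ v ∈ U', P.map (ev v) ≠ 0) → Rep b U' (fun v T => (g v T)⁻¹) := by
    intro hP
    refine ⟨Q.map (res h1), P.map (res h1), fun v hv => ?_, fun q hq => ?_⟩
    · rw [map_res]; exact hP v hv
    · filter_upwards [hE q (h1 hq)] with k hk
      rw [hk, pv_res, pv_res, inv_div]
  rcases h4 with h4 | ⟨m, h4⟩ | ⟨m, h4⟩
  · refine (rep_const (U := U') 0).congr fun q hq => ?_
    filter_upwards [hE q (h1 hq)] with k hk
    rw [hk]
    unfold pv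
    rw [h4 _ hq, Polynomial.eval_zero, zero_div, inv_zero]
    simp
  · refine main fun v hv h0 => ?_
    have e2 := (h4 v hv).2
    have e3 : (P.map (ev v)).coeff m = 0 := by rw [h0, Polynomial.coeff_zero]
    rw [Polynomial.coeff_map, ev_apply] at e3
    exact e2.ne' e3
  · refine main fun v hv h0 => ?_
    have e2 := (h4 v hv).2
    have e3 : (P.map (ev v)).coeff m = 0 := by rw [h0, Polynomial.coeff_zero]
    rw [Polynomial.coeff_map, ev_apply] at e3
    exact e2.ne e3

/-- after shrinking, a representable function has eventually a constant sign -/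
lemma Rep.sign {U : Set V} (hU : IsOpen U) (hne : U.Nonempty) {g : V → ℝ → ℝ} (hg : Rep b U g) :
    ∃ U', U' ⊆ U ∧ IsOpen U' ∧ U'.Nonempty ∧ ∃ s : SignType, ∀ q : Fin 3 → ℚ, toR q ∈ U' →
      ∀ᶠ k : ℕ in atTop, SignType.sign (g (toR q) ((k.factorial : ℕ) : ℝ)) = s := by
  obtain ⟨P, Q, hQ, hE⟩ := hg
  obtain ⟨U₁, a1, a2, a3, a4⟩ := sign_poly hU hne (P * Q)
  refine ⟨U₁, a1, a2, a3, ?_⟩
  have key : ∀ x y : ℝ, y ≠ 0 → x / y = x * y / (y * y) := by
    intro x y hy
    field_simp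
  rcases a4 with a4 | a4 | a4
  · refine ⟨0, fun q hq => ?_⟩
    filter_upwards [hE q (a1 hq), den_ne hQ (a1 hq)] with k h1 h2
    rw [h1, key _ _ h2, ← pv_mul, a4 _ hq, zero_div, sign_zero]
  · refine ⟨1, fun q hq => ?_⟩
    filter_upwards [hE q (a1 hq), den_ne hQ (a1 hq), a4 _ hq] with k h1 h2 h3
    rw [h1, key _ _ h2, ← pv_mul]
    exact sign_pos (div_pos h3 (mul_self_pos.2 h2))
  · refine ⟨-1, fun q hq => ?_⟩
    filter_upwards [hE q (a1 hq), den_ne hQ (a1 hq), a4 _ hq] with k h1 h2 h3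
    rw [h1, key _ _ h2, ← pv_mul]
    exact sign_neg (div_neg_of_neg_of_pos h3 (mul_self_pos.2 h2))

end Pool.Agent.H88.BR
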